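import Pool.Agent.H.MP_21b43d_ag.E3.Q.Lau
import Pool.Agent.H.MP_21b43d_ag.X.Hor
import Pool.Agent.H.MP_21b43d_ag.X.Kum2

/-!
# M21, existence part: the grid and the split structure sheaf of the bielliptic surface

The basis is `e (i, j) = B^δ D^i Y^j`, `i, j < 3`, `δ = 1` for `i < j`, `δ = 0` otherwise.
-/

set_option autoImplicit false

open CategoryTheory CategoryTheory.Limits AlgebraicGeometry TopologicalSpace MvPolynomial

noncomputable section

namespace M21.E3

open M21X

namespace Bi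

variable {K : Type} [Field K] [Algebra ℂ K] {q : Quad K}

/-- the indices of the four charts -/
def ix (s t : Bool) : Fin 9 := if s then (if t then 4 else 1) else (if t then 3 else 0)

/-- `1` or `0` -/
def oi (s : Bool) : ℤ := if s then 1 else 0

omit [Algebra ℂ K] in
theorem vec_ix (q : Quad K) (s t : Bool) : q.vec (ix s t) = q.B ^ oi s * q.Z ^ oi t := by
  cases s <;> cases t <;> simp [ix, Quad.vec, oi]

/-- **The grid of the bielliptic surface.** -/
def grid (h : q.Good) : Grid (N := 8) q.vec q.vec0_ne :=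
  Grid.mk1 (N := 8) q.vec q.vec0_ne 1 (fun s t => X (ix s t)) one_pos (fun s t => X_mem 8 _)
    (fun s t => by
      rw [aeval_X, vec_ix]
      exact mul_ne_zero (zpow_ne_zero _ h.B_ne) (zpow_ne_zero _ h.Z_ne))
    q.B q.Z
    (fun t => by
      rw [aeval_X, aeval_X, vec_ix, vec_ix]
      simp [oi])
    (fun s => by
      rw [aeval_X, aeval_X, vec_ix, vec_ix]
      simp [oi, mul_comm])
    (fun y => by
      by_contra hc
      push Not at hc
      exact h.cover4 y ⟨(Quad.notMem_O y _).1 (hc false false), (Quad.notMem_O y _).1 (hc true false),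
        (Quad.notMem_O y _).1 (hc false true), (Quad.notMem_O y _).1 (hc true true)⟩)

/-- the exponent `δ` -/
def dl (i j : ℕ) : ℤ := if i < j then 1 else 0

/-- the basis -/
def e (q : Quad K) (l : Fin 3 × Fin 3) : K :=
  q.B ^ dl l.1 l.2 * (q.D ^ (l.1 : ℕ) * q.Y ^ (l.2 : ℕ))

/-- the first exponents -/
def a (l : Fin 3 × Fin 3) : ℤ := (((l.2 : ℕ) : ℤ) - 2 * ((l.1 : ℕ) : ℤ)) / 3 - dl l.1 l.2

/-- the second exponents -/
def b (l : Fin 3 × Fin 3) : ℤ := - ((l.2 : ℕ) : ℤ)

/-- **The numerical condition.** -/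
theorem sum_eq : ∑ l, (a l + 1) + ∑ l, (b l + 1) = 0 := by
  simp only [Fintype.sum_prod_type, Fin.sum_univ_three]
  simp only [a, b, dl]
  decide

/-- a monomial -/
def mo (q : Quad K) (p z : ℤ) (i j : ℕ) : K := q.B ^ p * q.Z ^ z * (q.D ^ i * q.Y ^ j)

/-- the condition on the first exponent -/
def CB (s : Bool) (p : ℤ) (i j : ℕ) : Prop := if s then 3 * p + 2 * i - j ≤ 0 else 0 ≤ 3 * p + i - j

/-- the condition on the second exponent -/
def CZ (t : Bool) (z : ℤ) (j : ℕ) : Prop := if t then z + j ≤ 0 else 0 ≤ z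

/-- the monomials in the chart ring -/
def SS (q : Quad K) (s t : Bool) : Set K :=
  {x : K | ∃ l p z, (Rg s (a l) p ∧ Rg t (b l) z) ∧ x = q.B ^ p * q.Z ^ z * e q l}

theorem rg_iff (s : Bool) (i j : Fin 3) (p : ℤ) :
    Rg s (a (i, j)) p ↔ CB s (p + dl i j) i j := by
  have hi := i.2
  have hj := j.2
  simp only [Rg, a, CB, dl]
  cases s
  · simp only [Bool.false_eq_true, if_false]
    split_ifs <;> omega
  · simp only [if_true]
    split_ifs <;> omega

theorem rgz_iff (t : Bool) (i j : Fin 3) (z : ℤ) : Rg t (b (i, j)) z ↔ CZ t z j := by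
  simp only [Rg, b, CZ]
  cases t
  · simp
  · simp only [if_true]
    omega

theorem mo_of_lt (h : q.Good) (i j : Fin 3) (p z : ℤ) :
    mo q p z i j = q.B ^ (p - dl i j) * q.Z ^ z * e q (i, j) := by
  rw [mo, e, zpow_sub₀ h.B_ne]
  have := zpow_ne_zero (dl i j) h.B_ne
  field_simp

theorem mo_mem (h : q.Good) (s t : Bool) : ∀ (n i j : ℕ) (p z : ℤ), i + j ≤ n → CB s p i j →
    CZ t z j → mo q p z i j ∈ Submodule.span ℂ (SS q s t) := by
  intro n
  induction n using Nat.strong_induction_on with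
  | _ n ih =>
    intro i j p z hn h1 h2
    have hB := h.B_ne
    have hD3 := h.hD
    have hY3 := h.hY
    by_cases hi : 3 ≤ i
    · obtain ⟨i, rfl⟩ := Nat.exists_eq_add_of_le' hi
      have e1 : mo q p z (i + 3) j = -(mo q (p + 2) z i j) - mo q (p + 1) z i j := by
        simp only [mo]
        rw [zpow_add₀ hB, zpow_add₀ hB, pow_add, zpow_one, zpow_ofNat]
        linear_combination q.B ^ p * q.Z ^ z * q.D ^ i * q.Y ^ j * hD3
      rw [e1]
      refine sub_mem (neg_mem (ih (i + j) (by omega) i j _ _ le_rfl ?_ h2))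
        (ih (i + j) (by omega) i j _ _ le_rfl ?_ h2)
      · simp only [CB] at h1 ⊢
        split_ifs at h1 ⊢ <;> push_cast at h1 <;> omega
      · simp only [CB] at h1 ⊢
        split_ifs at h1 ⊢ <;> push_cast at h1 <;> omega
    by_cases hj : 3 ≤ j
    · obtain ⟨j, rfl⟩ := Nat.exists_eq_add_of_le' hj
      have e1 : mo q p z i (j + 3) = -(mo q (p - 1) z i j) - mo q (p - 1) (z + 3) i j := by
        simp only [mo]
        rw [zpow_sub₀ hB, zpow_add₀ h.Z_ne, pow_add, zpow_one, zpow_ofNat]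
        field_simp
        linear_combination q.Z ^ z * q.D ^ i * q.Y ^ j * hY3
      rw [e1]
      refine sub_mem (neg_mem (ih (i + j) (by omega) i j _ _ le_rfl ?_ ?_))
        (ih (i + j) (by omega) i j _ _ le_rfl ?_ ?_)
      all_goals
        simp only [CB, CZ] at h1 h2 ⊢
        split_ifs at h1 h2 ⊢ <;> push_cast at h1 h2 <;> omega
    · have hi' : i < 3 := by omega
      have hj' : j < 3 := by omega
      refine Submodule.subset_span ⟨(⟨i, hi'⟩, ⟨j, hj'⟩), p - dl i j, z, ⟨?_, ?_⟩, ?_⟩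
      · rw [rg_iff]
        simpa using h1
      · rw [rgz_iff]
        exact h2
      · exact mo_of_lt h ⟨i, hi'⟩ ⟨j, hj'⟩ p z

theorem mo_mul (h : q.Good) (p z p' z' : ℤ) (i j i' j' : ℕ) :
    mo q p z i j * mo q p' z' i' j' = mo q (p + p') (z + z') (i + i') (j + j') := by
  simp only [mo]
  rw [zpow_add₀ h.B_ne, zpow_add₀ h.Z_ne, pow_add, pow_add]
  ring

theorem CB.add {s : Bool} {p p' : ℤ} {i j i' j' : ℕ} (h : CB s p i j) (h' : CB s p' i' j') :
    CB s (p + p') (i + i') (j + j') := by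
  simp only [CB] at h h' ⊢
  split_ifs at h h' ⊢ <;> push_cast <;> omega

theorem CZ.add {t : Bool} {z z' : ℤ} {j j' : ℕ} (h : CZ t z j) (h' : CZ t z' j') :
    CZ t (z + z') (j + j') := by
  simp only [CZ] at h h' ⊢
  split_ifs at h h' ⊢ <;> push_cast <;> omega

theorem mul_mem_span (h : q.Good) {s t : Bool} {p z : ℤ} {i j : ℕ} (h1 : CB s p i j)
    (h2 : CZ t z j) {x : K} (hx : x ∈ SS q s t) : mo q p z i j * x ∈ Submodule.span ℂ (SS q s t) := by
  obtain ⟨⟨i', j'⟩, p', z', ⟨h3, h4⟩, rfl⟩ := hx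
  rw [rg_iff] at h3
  rw [rgz_iff] at h4
  have e1 : q.B ^ p' * q.Z ^ z' * e q (i', j') = mo q (p' + dl i' j') z' i' j' := by
    rw [mo_of_lt h, add_sub_cancel_right]
  rw [e1, mo_mul h]
  exact mo_mem h s t _ _ _ _ _ le_rfl (h1.add h3) (h2.add h4)

/-- the exponents of the nine coordinates -/
def ep : Fin 9 → ℤ := ![0, 1, 0, 0, 1, 0, 0, 1, 0]
/-- the exponents of the nine coordinates -/
def ez : Fin 9 → ℤ := ![0, 0, 0, 1, 1, 1, 0, 0, 0]
/-- the exponents of the nine coordinates -/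
def ei : Fin 9 → ℕ := ![0, 0, 1, 0, 0, 1, 1, 0, 2]
/-- the exponents of the nine coordinates -/
def ej : Fin 9 → ℕ := ![0, 0, 0, 0, 0, 0, 1, 1, 1]

omit [Algebra ℂ K] in
theorem vec_eq (q : Quad K) (k : Fin 9) : q.vec k = mo q (ep k) (ez k) (ei k) (ej k) := by
  fin_cases k <;> (simp [Quad.vec, mo, ep, ez, ei, ej]; try ring)

theorem vec_div (h : q.Good) (s t : Bool) (k : Fin 9) :
    q.vec k / q.vec (ix s t) = mo q (ep k - oi s) (ez k - oi t) (ei k) (ej k) := by
  have hB := zpow_ne_zero (oi s) h.B_ne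
  have hZ := zpow_ne_zero (oi t) h.Z_ne
  rw [vec_ix, vec_eq, mo, mo, zpow_sub₀ h.B_ne, zpow_sub₀ h.Z_ne]
  field_simp

theorem CB_vec (s : Bool) (k : Fin 9) : CB s (ep k - oi s) (ei k) (ej k) := by
  cases s <;> fin_cases k <;> simp [CB, ep, ei, ej, oi]

theorem CZ_vec (t : Bool) (k : Fin 9) : CZ t (ez k - oi t) (ej k) := by
  cases t <;> fin_cases k <;> simp [CZ, ez, ej, oi]

/-- the chart rings, as the algebras generated by the quotients of the coordinates -/
abbrev AD (q : Quad K) (s t : Bool) : Subalgebra ℂ K :=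
  Algebra.adjoin ℂ (Set.range fun k => q.vec k / q.vec (ix s t))

theorem mo_vec_mem (h : q.Good) (s t : Bool) (k : Fin 9) :
    mo q (ep k - oi s) (ez k - oi t) (ei k) (ej k) ∈ AD q s t := by
  rw [← vec_div h]
  exact Algebra.subset_adjoin ⟨k, rfl⟩

theorem B_mem (h : q.Good) (s t : Bool) : q.B ^ BiP.sg s ∈ AD q s t := by
  cases s <;> cases t
  · have := mo_vec_mem h false false 1
    simpa [mo, ep, ez, ei, ej, oi, BiP.sg] using this
  · have := mo_vec_mem h false true 4
    simpa [mo, ep, ez, ei, ej, oi, BiP.sg] using this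
  · have := mo_vec_mem h true false 0
    simpa [mo, ep, ez, ei, ej, oi, BiP.sg] using this
  · have := mo_vec_mem h true true 3
    simpa [mo, ep, ez, ei, ej, oi, BiP.sg] using this

theorem Z_mem (h : q.Good) (s t : Bool) : q.Z ^ BiP.sg t ∈ AD q s t := by
  cases s <;> cases t
  · have := mo_vec_mem h false false 3
    simpa [mo, ep, ez, ei, ej, oi, BiP.sg] using this
  · have := mo_vec_mem h false true 0
    simpa [mo, ep, ez, ei, ej, oi, BiP.sg] using this
  · have := mo_vec_mem h true false 4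
    simpa [mo, ep, ez, ei, ej, oi, BiP.sg] using this
  · have := mo_vec_mem h true true 1
    simpa [mo, ep, ez, ei, ej, oi, BiP.sg] using this

/-- `D / B ^ s` -/
theorem D_mem (h : q.Good) (s t : Bool) : mo q (-oi s) 0 1 0 ∈ AD q s t := by
  cases t
  · have := mo_vec_mem h s false 2
    simpa [ep, ez, ei, ej, oi] using this
  · have := mo_vec_mem h s true 5
    simpa [ep, ez, ei, ej, oi] using this

/-- `D Y / (B ^ s Z ^ t)` -/
theorem P_mem (h : q.Good) (s t : Bool) : mo q (-oi s) (-oi t) 1 1 ∈ AD q s t := by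
  have := mo_vec_mem h s t 6
  simpa [ep, ez, ei, ej] using this

/-- `B Y / (B ^ s Z ^ t)` -/
theorem Q_mem (h : q.Good) (s t : Bool) : mo q (1 - oi s) (-oi t) 0 1 ∈ AD q s t := by
  have := mo_vec_mem h s t 7
  simpa [ep, ez, ei, ej] using this

/-- `D² Y / (B ^ s Z ^ t)` -/
theorem R_mem (h : q.Good) (s t : Bool) : mo q (-oi s) (-oi t) 2 1 ∈ AD q s t := by
  have := mo_vec_mem h s t 8
  simpa [ep, ez, ei, ej] using this

/-- the extremal monomials -/
theorem gen_mem (h : q.Good) (s t : Bool) (i j : Fin 3) :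
    mo q (BiP.tw s (a (i, j)) + dl i j) (BiP.tw t (b (i, j))) i j ∈ AD q s t := by
  have hD := D_mem h s t
  have hP := P_mem h s t
  have hQ := Q_mem h s t
  have hR := R_mem h s t
  have hZ : BiP.tw t (b (i, j)) = ((j : ℕ) : ℤ) * (-oi t) := by
    cases t <;> simp [BiP.tw, b, oi]
  rw [hZ]
  clear hZ
  generalize -oi t = u at hP hQ hR ⊢
  have hB := h.B_ne
  have hD3 := h.hD
  have M : ∀ {x y : K}, x = y → y ∈ AD q s t → x ∈ AD q s t := fun h h' => h ▸ h'
  cases s
  · fin_cases i <;> fin_cases j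
    all_goals
      simp only [BiP.tw, oi, Bool.false_eq_true, if_false, neg_zero, sub_zero] at hD hP hQ hR ⊢
    · exact M (by simp [mo, dl]) (one_mem _)
    · exact M (by simp [mo, dl]) hQ
    · refine M ?_ (sub_mem (neg_mem (mul_mem hR hP)) (mul_mem hQ hQ))
      rw [mo_mul h, mo_mul h]
      simp only [mo, dl]
      norm_num
      rw [← two_mul]
      linear_combination (q.Z ^ (2 * u) * q.Y ^ 2) * hD3
    · exact M (by simp [mo, dl]) hD
    · exact M (by simp [mo, dl]) hP
    · refine M ?_ (mul_mem hQ hP)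
      rw [mo_mul h]
      simp [dl, two_mul]
    · refine M ?_ (mul_mem hD hD)
      rw [mo_mul h]
      simp [dl]
    · exact M (by simp [mo, dl]) hR
    · refine M ?_ (mul_mem hP hP)
      rw [mo_mul h]
      simp [dl, two_mul]
  · fin_cases i <;> fin_cases j
    all_goals
      simp only [BiP.tw, oi, if_true] at hD hP hQ hR ⊢
    · exact M (by simp [mo, dl, a]) (one_mem _)
    · exact M (by simp [mo, dl, a]) hQ
    · refine M ?_ (mul_mem hQ hQ)
      rw [mo_mul h]
      simp [dl, two_mul, a]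
    · exact M (by simp [mo, dl, a]) hD
    · exact M (by simp [mo, dl, a]) hP
    · refine M ?_ (sub_mem (neg_mem (mul_mem hR hR)) (mul_mem hP hQ))
      rw [mo_mul h, mo_mul h]
      simp only [mo, dl, a]
      norm_num
      rw [← two_mul]
      generalize q.Z ^ (2 * u) = w
      field_simp
      linear_combination (w * q.D * q.Y ^ 2) * hD3
    · refine M ?_ (mul_mem hD hD)
      rw [mo_mul h]
      simp [dl, a]
    · exact M (by simp [mo, dl, a]) hR
    · refine M ?_ (mul_mem hR hQ)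
      rw [mo_mul h]
      simp [dl, two_mul, a]

theorem mem_AD (h : q.Good) (s t : Bool) {x : K} (hx : x ∈ SS q s t) : x ∈ AD q s t := by
  obtain ⟨⟨i, j⟩, p, z, ⟨h1, h2⟩, rfl⟩ := hx
  obtain ⟨n, hn⟩ : ∃ n : ℕ, p = BiP.tw s (a (i, j)) + BiP.sg s * n := by
    cases s
    · exact ⟨p.toNat, by simp [BiP.tw, BiP.sg, Rg] at h1 ⊢; omega⟩
    · exact ⟨(a (i, j) - p).toNat, by simp [BiP.tw, BiP.sg, Rg] at h1 ⊢; omega⟩
  obtain ⟨m, hm⟩ : ∃ m : ℕ, z = BiP.tw t (b (i, j)) + BiP.sg t * m := by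
    cases t
    · exact ⟨z.toNat, by simp [BiP.tw, BiP.sg, Rg] at h2 ⊢; omega⟩
    · exact ⟨(b (i, j) - z).toNat, by simp [BiP.tw, BiP.sg, Rg] at h2 ⊢; omega⟩
  have e1 : q.B ^ p * q.Z ^ z * e q (i, j) = (q.B ^ BiP.sg s) ^ n * (q.Z ^ BiP.sg t) ^ m *
      mo q (BiP.tw s (a (i, j)) + dl i j) (BiP.tw t (b (i, j))) i j := by
    rw [mo_of_lt h, add_sub_cancel_right, hn, hm, zpow_add₀ h.B_ne, zpow_add₀ h.Z_ne, zpow_mul,
      zpow_mul, zpow_natCast, zpow_natCast]
    ring
  rw [e1]
  exact mul_mem (mul_mem (pow_mem (B_mem h s t) n) (pow_mem (Z_mem h s t) m)) (gen_mem h s t i j)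

/-- **The split structure sheaf of the bielliptic surface.** -/
def split (h : q.Good) : SplitK (grid h) (Fin 3 × Fin 3) where
  e := e q
  a := a
  b := b
  indep := by
    refine indep_of_field h.ai (e q) q.FF q.B_mem q.Z_mem ?_
    rw [Fintype.linearIndependent_iff]
    intro c hc l
    have hδ : ∀ i j : Fin 3, q.B ^ dl i j ∈ q.FF := fun i j => zpow_mem q.B_mem _
    have h1 := h.indep (fun i j => c (i, j) * ⟨_, hδ i j⟩) (by
      rw [Fintype.sum_prod_type] at hc
      refine Eq.trans ?_ hc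
      refine Finset.sum_congr rfl fun i _ => Finset.sum_congr rfl fun j _ => ?_
      change (c (i, j) : K) * q.B ^ dl i j * _ = (c (i, j) : K) * (q.B ^ dl i j * _)
      rw [mul_assoc]) l.1 l.2
    have h2 := congrArg Subtype.val h1
    change (c (l.1, l.2) : K) * q.B ^ dl l.1 l.2 = 0 at h2
    rcases mul_eq_zero.1 h2 with h3 | h3
    · exact Subtype.ext h3
    · exact absurd h3 (zpow_ne_zero _ h.B_ne)
  secs s t x := by
    refine mem_RR_iff_span q.vec (ix s t) _ (SS q s t) ?_ (fun k x hx => ?_)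
      (fun x hx => mem_AD h s t hx) x
    · have := mo_mem h s t 0 0 0 0 0 le_rfl (by cases s <;> simp [CB]) (by cases t <;> simp [CZ])
      simpa [mo] using this
    · rw [vec_div h]
      exact mul_mem_span h (CB_vec s k) (CZ_vec t k) hx

end Bi

end M21.E3
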