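import Pool.Agent.H.MP_21b43d_ag.E3.Q.FF
import Pool.Agent.H.MP_21b43d_ag.E3.S4.Push1

/-!
# M21, existence part: split structure sheaves from the values at a dominant `K`-point, pull back
-/

set_option autoImplicit false

open CategoryTheory CategoryTheory.Limits AlgebraicGeometry TopologicalSpace

noncomputable section

namespace M21.E3

section split

variable {X : Scheme.{0}} [IsIntegral X] [CX X] {K : Type} [Field K] [Algebra ℂ K]
  (ξ : Spec (.of K) ⟶ X) [IsDominant ξ]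

/-- **A split structure sheaf from the values at a dominant `K`-point.** -/
theorem exists_split (G : BiP X) (hξ : ξ ≫ CX.f = Spec.map (CommRingCat.ofHom (algebraMap ℂ K)))
    {B Z : K} (hB : ffm ξ G.B = B) (hZ : ffm ξ G.Z = Z) {ι : Type} (e : ι → K) (a b : ι → ℤ)
    (indep : LinearIndependent ℂ (fun x : ι × ℤ × ℤ => B ^ x.2.1 * Z ^ x.2.2 * e x.1))
    (secs : ∀ s t (h : ⊤ ≤ ξ ⁻¹ᵁ G.U s t) (x : K), x ∈ (M21X.rho ξ (G.U s t) h).range ↔
      x ∈ Submodule.span ℂ {x : K | ∃ l p q, (Rg s (a l) p ∧ Rg t (b l) q) ∧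
        x = B ^ p * Z ^ q * e l}) :
    ∃ S : G.Split (FO X) ι, S.a = a ∧ S.b = b ∧ ∀ l, ffm ξ (S.e l) = e l := by
  have hU : ∀ s t, ⊤ ≤ ξ ⁻¹ᵁ G.U s t := fun s t =>
    M21X.top_le_of_nonempty ξ _ _ (G.pt_mem_U s t)
  have he : ∀ l, ∃ x : X.functionField, ffm ξ x = e l := by
    intro l
    have h1 : e l ∈ (M21X.rho ξ (G.U false false) (hU false false)).range := by
      rw [secs]
      refine Submodule.subset_span ⟨l, 0, 0, ⟨le_refl (0 : ℤ), le_refl (0 : ℤ)⟩, ?_⟩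
      simp
    exact exists_ffm_eq ξ (G.pt_mem_U false false) (hU false false) _ h1
  choose e' he' using he
  let F : X.functionField →ₐ[ℂ] K := ffA ξ hξ
  have hF : ∀ g, F g = ffm ξ g := fun _ => rfl
  have hinj : Function.Injective F := ffm_inj ξ
  refine ⟨{ e := e', a := a, b := b, indep := ?_, secs := ?_ }, rfl, rfl, he'⟩
  · refine LinearIndependent.of_comp F.toLinearMap ?_
    convert! indep using 1
    ext x
    simp only [Function.comp_apply, AlgHom.toLinearMap_apply, map_mul, map_zpow₀, hF, hB, hZ, he']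
  · intro s t
    ext x
    refine (ffm_mem_iff ξ (G.pt_mem_U s t) (hU s t) x).symm.trans ((secs s t _ _).trans ?_)
    have h1 : Submodule.map F.toLinearMap (G.spanR e'
        (fun l p q => Rg s (a l) p ∧ Rg t (b l) q)) = Submodule.span ℂ
        {x : K | ∃ l p q, (Rg s (a l) p ∧ Rg t (b l) q) ∧ x = B ^ p * Z ^ q * e l} := by
      rw [BiP.spanR, Submodule.map_span]
      congr 1
      ext y
      constructor
      · rintro ⟨_, ⟨l, p, q, h, rfl⟩, rfl⟩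
        refine ⟨l, p, q, h, ?_⟩
        simp only [AlgHom.toLinearMap_apply, map_mul, map_zpow₀, hF, hB, hZ, he']
      · rintro ⟨l, p, q, h, rfl⟩
        refine ⟨_, ⟨l, p, q, h, rfl⟩, ?_⟩
        simp only [AlgHom.toLinearMap_apply, map_mul, map_zpow₀, hF, hB, hZ, he']
    rw [← h1]
    exact hinj.mem_set_image

end split

section pull

variable {X Q : Scheme.{0}} {K : Type} [Field K] (π : X ⟶ Q) (ξ : Spec (.of K) ⟶ X)
  (η : Spec (.of K) ⟶ Q)

/-- values of a pull back -/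
theorem rho_app (hπ : ξ ≫ π = η) {U : Q.Opens} (h : ⊤ ≤ ξ ⁻¹ᵁ (π ⁻¹ᵁ U)) (h' : ⊤ ≤ η ⁻¹ᵁ U)
    (a : Γ(Q, U)) : M21X.rho ξ (π ⁻¹ᵁ U) h (π.app U a) = M21X.rho η U h' a := by
  subst hπ
  have h1 : (ξ ≫ π).appLE U ⊤ h' = π.app U ≫ ξ.appLE (π ⁻¹ᵁ U) ⊤ h :=
    Scheme.Hom.comp_appLE ξ π U ⊤ h'
  rw [M21X.rho, M21X.rho, h1]
  rfl

variable [IsIntegral X] [IsIntegral Q] [IsDominant ξ] [IsDominant η] (G : BiP Q)
  (haff : ∀ s t, IsAffineOpen (π ⁻¹ᵁ G.U s t)) (pt : X)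
  (hpt : π pt ∈ (G.V false ⊓ G.V true) ⊓ (G.W false ⊓ G.W true))

omit [IsIntegral X] [IsIntegral Q] [IsDominant ξ] [IsDominant η] in
theorem top_le_pull (hπ : ξ ≫ π = η) {U : Q.Opens} (h' : ⊤ ≤ η ⁻¹ᵁ U) : ⊤ ≤ ξ ⁻¹ᵁ (π ⁻¹ᵁ U) := by
  subst hπ
  exact h'

theorem ffm_pull_B (hπ : ξ ≫ π = η) : ffm ξ (G.pull π haff pt hpt).B = ffm η G.B := by
  have h1 : ⊤ ≤ η ⁻¹ᵁ G.V false := M21X.top_le_of_nonempty η _ _ G.pt_mem.1.1
  have h2 := top_le_pull π ξ η hπ h1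
  refine (ffm_toK ξ (p := pt) _ h2 _).trans ?_
  refine Eq.trans ?_ (ffm_toK η (p := G.pt) G.pt_mem.1.1 h1 (G.b false)).symm
  exact rho_app π ξ η hπ h2 h1 (G.b false)

theorem ffm_pull_Z (hπ : ξ ≫ π = η) : ffm ξ (G.pull π haff pt hpt).Z = ffm η G.Z := by
  have h1 : ⊤ ≤ η ⁻¹ᵁ G.W false := M21X.top_le_of_nonempty η _ _ G.pt_mem.2.1
  have h2 := top_le_pull π ξ η hπ h1
  refine (ffm_toK ξ (p := pt) _ h2 _).trans ?_
  refine Eq.trans ?_ (ffm_toK η (p := G.pt) G.pt_mem.2.1 h1 (G.z false)).symm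
  exact rho_app π ξ η hπ h2 h1 (G.z false)

end pull

end M21.E3
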