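import Pool.Agent.H.MP_21b43d_ag.E3.Q.Plane
import Pool.Agent.H.MP_21b43d_ag.E3.Q.Pull
import Pool.Agent.H.MP_21b43d_ag.E3.S4.Bip5

/-!
# M21, existence part: the morphism of a grid to `ℙ¹ × ℙ¹`

`g : Grid v hv` with `g.B`, `g.Z` algebraically independent: the morphism
`g.pi : XX v hv ⟶ XX (1, B, Z, B Z)`; if the chart rings have finite bases (`SplitK g ι`, `ι` finite), it is
finite, and the structure sheaf is split with respect to the pull back of the two covers.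
-/

set_option autoImplicit false

open CategoryTheory CategoryTheory.Limits AlgebraicGeometry TopologicalSpace MvPolynomial

noncomputable section

namespace M21.E3

open M21X M21.S4

variable {N : ℕ} {K : Type} [Field K] [Algebra ℂ K]

omit [Algebra ℂ K] in
theorem pw_eq {B : K} (s : Bool) : pw B s = B ^ BiP.sg s := by
  cases s <;> simp [pw, BiP.sg]

namespace Grid

variable {v : Fin (N + 1) → K} {hv : v 0 ≠ 0} (g : Grid v hv)

theorem hB' (s t : Bool) : aeval v (g.f (!s) t) = pw g.B s ^ g.m * aeval v (g.f s t) := by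
  have hB := g.B_ne
  cases s
  · exact g.hB t
  · rw [g.hB t]
    simp only [Bool.not_true, pw, if_true, inv_pow]
    field_simp

theorem hZ' (s t : Bool) : aeval v (g.f s (!t)) = pw g.Z t ^ g.n * aeval v (g.f s t) := by
  have hZ := g.Z_ne
  cases t
  · exact g.hZ s
  · rw [g.hZ s]
    simp only [Bool.not_true, pw, if_true, inv_pow]
    field_simp

theorem loc (s t s' t' : Bool) (β : K) (m : ℕ)
    (h : aeval v (g.f s' t') = β ^ m * aeval v (g.f s t)) (a : K)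
    (ha : a ∈ RR v (g.f s' t') (g.ne s' t')) : ∃ n : ℕ, β ^ n * a ∈ RR v (g.f s t) (g.ne s t) := by
  rw [mem_RR_iff v _ _ (g.hf s' t')] at ha
  obtain ⟨k, p, hp, rfl⟩ := ha
  refine ⟨m * k, ?_⟩
  rw [mem_RR_iff v _ _ (g.hf s t)]
  refine ⟨k, p, hp, ?_⟩
  have h0 := g.ne s t
  have h1 := g.ne s' t'
  have hβ : β ^ (m * k) ≠ 0 := by
    intro hb
    apply pow_ne_zero k h1
    rw [h, mul_pow, ← pow_mul, hb, zero_mul]
  rw [h, mul_pow, ← pow_mul]
  field_simp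

/-- **The four charts of a grid.** -/
def fc : FC (XX v hv) (XX.str v hv) K where
  xi := XX.pt v hv
  dom := inferInstance
  R s t := RA v (g.f s t) (g.ne s t) (g.hf s t)
  j s t := chart v hv (g.f s t) (g.ne s t) (g.hf s t) g.d_pos
  opn s t := inferInstanceAs (IsOpenImmersion (chart v hv (g.f s t) (g.ne s t) (g.hf s t) g.d_pos))
  hj s t := chart_pt v hv (g.f s t) (g.ne s t) (g.hf s t) g.d_pos
  hf s t := chart_str v hv (g.f s t) (g.ne s t) (g.hf s t) g.d_pos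
  cov x := by
    obtain ⟨s, t, h⟩ := g.cover x
    refine ⟨s, t, ?_⟩
    rw [← chart_opensRange v hv (g.f s t) (g.ne s t) (g.hf s t) g.d_pos] at h
    exact h
  B := g.B
  Z := g.Z
  B_ne := g.B_ne
  Z_ne := g.Z_ne
  memB s t := by
    rw [pw_eq]
    exact g.memB s t
  memZ s t := by
    rw [pw_eq]
    exact g.memZ s t
  locB s t a ha := g.loc s t (!s) t _ _ (g.hB' s t) a ha
  locZ s t a ha := g.loc s t s (!t) _ _ (g.hZ' s t) a ha

theorem fc_U (s t : Bool) : g.fc.U s t = g.biP.U s t := by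
  rw [g.U_eq, ← chart_opensRange v hv (g.f s t) (g.ne s t) (g.hf s t) g.d_pos]
  exact Scheme.Hom.image_top_eq_opensRange _

/-- the charts of `ℙ¹ × ℙ¹` -/
abbrev plane (h : AlgebraicIndependent ℂ ![g.B, g.Z]) :
    Grid (N := 3) (Pl.vec g.B g.Z) (Pl.vec0_ne g.B g.Z) :=
  Pl.grid (Pl.ne_B h) (Pl.ne_Z h)

theorem zpow_sg_mem {R : Subalgebra ℂ K} {β : K} (s : Bool) (hβ : β ^ BiP.sg s ∈ R) {p : ℤ}
    (hp : Rg s 0 p) : β ^ p ∈ R := by
  obtain ⟨n, hn⟩ : ∃ n : ℕ, p = BiP.sg s * n := by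
    cases s
    · exact ⟨p.toNat, by simp [BiP.sg, Rg] at hp ⊢; omega⟩
    · exact ⟨(-p).toNat, by simp [BiP.sg, Rg] at hp ⊢; omega⟩
  rw [hn, zpow_mul, zpow_natCast]
  exact pow_mem hβ n

theorem plane_le (h : AlgebraicIndependent ℂ ![g.B, g.Z]) (s t : Bool) :
    (g.plane h).fc.R s t ≤ g.fc.R s t := by
  intro x hx
  have h1 : x ∈ RR (Pl.vec g.B g.Z) ((g.plane h).f s t) ((g.plane h).ne s t) := hx
  rw [(Pl.split h).secs s t] at h1
  refine (Submodule.span_le (p := Subalgebra.toSubmodule (g.fc.R s t))).2 ?_ h1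
  rintro _ ⟨l, p, q, ⟨h2, h3⟩, rfl⟩
  have h4 : g.B ^ p * g.Z ^ q * 1 ∈ g.fc.R s t := by
    rw [mul_one]
    exact mul_mem (zpow_sg_mem s (g.memB s t) h2) (zpow_sg_mem t (g.memZ s t) h3)
  exact h4

/-- **The morphism to `ℙ¹ × ℙ¹`.** -/
def pi (h : AlgebraicIndependent ℂ ![g.B, g.Z]) :
    XX v hv ⟶ XX (N := 3) (Pl.vec g.B g.Z) (Pl.vec0_ne g.B g.Z) :=
  g.fc.pi (g.plane h).fc (g.plane_le h)

variable (h : AlgebraicIndependent ℂ ![g.B, g.Z])

theorem pi_str : g.pi h ≫ XX.str (N := 3) (Pl.vec g.B g.Z) (Pl.vec0_ne g.B g.Z) = XX.str v hv :=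
  g.fc.pi_g (g.plane h).fc (g.plane_le h)

theorem pi_CX : g.pi h ≫ CX.f = CX.f := g.pi_str h

theorem pt_pi : XX.pt v hv ≫ g.pi h = XX.pt (N := 3) (Pl.vec g.B g.Z) (Pl.vec0_ne g.B g.Z) :=
  g.fc.xi_pi (g.plane h).fc (g.plane_le h)

theorem pi_preimage (s t : Bool) : g.pi h ⁻¹ᵁ (g.plane h).biP.U s t = g.biP.U s t := by
  rw [← (g.plane h).fc_U, ← g.fc_U]
  exact g.fc.preimage_U (g.plane h).fc (g.plane_le h) rfl rfl s t

theorem pi_aff (s t : Bool) : IsAffineOpen (g.pi h ⁻¹ᵁ (g.plane h).biP.U s t) := by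
  rw [g.pi_preimage]
  exact g.biP.aff s t

theorem pi_pt : g.pi h (gp (XX.pt v hv)) = gp (XX.pt (N := 3) (Pl.vec g.B g.Z) (Pl.vec0_ne g.B g.Z)) := by
  rw [gp, gp, ← Scheme.Hom.comp_apply, g.pt_pi]

theorem pi_pt_mem : g.pi h (gp (XX.pt v hv)) ∈
    ((g.plane h).biP.V false ⊓ (g.plane h).biP.V true) ⊓
      ((g.plane h).biP.W false ⊓ (g.plane h).biP.W true) := by
  rw [g.pi_pt]
  exact (g.plane h).biP.pt_mem

/-- the values of the functions on the preimages of the charts -/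
theorem range_rho_pi (s t : Bool) (h' : ⊤ ≤ XX.pt v hv ⁻¹ᵁ (g.pi h ⁻¹ᵁ (g.plane h).biP.U s t)) :
    (rho (XX.pt v hv) (g.pi h ⁻¹ᵁ (g.plane h).biP.U s t) h').range = RR v (g.f s t) (g.ne s t) := by
  rw [← g.range_rho s t (g.top_le_U s t)]
  have key : ∀ (U U' : (XX v hv).Opens) (_ : U = U') (h : ⊤ ≤ XX.pt v hv ⁻¹ᵁ U)
      (h' : ⊤ ≤ XX.pt v hv ⁻¹ᵁ U'), (rho (XX.pt v hv) U h).range = (rho (XX.pt v hv) U' h').range := by
    rintro U _ rfl h h'
    rfl
  exact key _ _ (g.pi_preimage h s t) _ _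

/-- **The split structure sheaf for the pull back of the two covers.** -/
theorem exists_splitPull {ι : Type} (S : SplitK g ι) :
    ∃ T : ((g.plane h).biP.pull (g.pi h) (g.pi_aff h) (gp (XX.pt v hv)) (g.pi_pt_mem h)).Split
      (FO (XX v hv)) ι, T.a = S.a ∧ T.b = S.b ∧ ∀ l, ffm (XX.pt v hv) (T.e l) = S.e l := by
  refine exists_split (XX.pt v hv) _ (pt_str v hv) (B := g.B) (Z := g.Z) ?_ ?_ S.e S.a S.b S.indep ?_
  · rw [ffm_pull_B (g.pi h) (XX.pt v hv) _ _ _ _ _ (g.pt_pi h)]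
    exact (g.plane h).ffm_B
  · rw [ffm_pull_Z (g.pi h) (XX.pt v hv) _ _ _ _ _ (g.pt_pi h)]
    exact (g.plane h).ffm_Z
  · intro s t h' x
    exact (SetLike.ext_iff.1 (g.range_rho_pi h s t h') x).trans (S.secs s t x)

theorem mem_plane {s t : Bool} {p q : ℤ} (hp : Rg s 0 p) (hq : Rg t 0 q) :
    g.B ^ p * g.Z ^ q ∈ (g.plane h).fc.R s t := by
  have h1 : g.B ^ p * g.Z ^ q ∈ RR (Pl.vec g.B g.Z) ((g.plane h).f s t) ((g.plane h).ne s t) := by
    rw [(Pl.split h).secs s t]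
    exact Submodule.subset_span ⟨(), p, q, ⟨hp, hq⟩, (mul_one _).symm⟩
  exact h1

/-- **Finiteness of the chart rings.** -/
theorem incl_finite {ι : Type} [Finite ι] (S : SplitK g ι) (s t : Bool) :
    (Subalgebra.inclusion (g.plane_le h s t)).toRingHom.Finite := by
  let := (Subalgebra.inclusion (g.plane_le h s t)).toRingHom.toAlgebra
  change Module.Finite _ _
  have hrg : ∀ (s : Bool) (a : ℤ), Rg s a (BiP.tw s a) := by
    intro s a
    cases s <;> simp [Rg, BiP.tw]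
  have hrg' : ∀ (s : Bool) (a p : ℤ), Rg s a p → Rg s 0 (p - BiP.tw s a) := by
    intro s a p
    cases s <;> simp [Rg, BiP.tw]
  have hS : ∀ x ∈ Submodule.span ℂ {x : K | ∃ l p q, (Rg s (S.a l) p ∧ Rg t (S.b l) q) ∧
      x = g.B ^ p * g.Z ^ q * S.e l}, x ∈ g.fc.R s t := fun x hx => (S.secs s t x).2 hx
  let m : ι → g.fc.R s t := fun l => ⟨g.B ^ BiP.tw s (S.a l) * g.Z ^ BiP.tw t (S.b l) * S.e l,
    hS _ (Submodule.subset_span ⟨l, _, _, ⟨hrg _ _, hrg _ _⟩, rfl⟩)⟩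
  refine ⟨Submodule.fg_def.2 ⟨Set.range m, Set.finite_range m, ?_⟩⟩
  rw [eq_top_iff]
  rintro ⟨x, hx⟩ -
  have hx' := (S.secs s t x).1 hx
  induction hx' using Submodule.span_induction with
  | mem y hy =>
    obtain ⟨l, p, q, ⟨h1, h2⟩, rfl⟩ := hy
    have h3 := Submodule.smul_mem (Submodule.span ((g.plane h).fc.R s t) (Set.range m))
      (⟨_, g.mem_plane h (hrg' s _ _ h1) (hrg' t _ _ h2)⟩ : (g.plane h).fc.R s t)
      (Submodule.subset_span ⟨l, rfl⟩)
    convert h3 using 1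
    apply Subtype.ext
    change _ = g.B ^ (p - BiP.tw s (S.a l)) * g.Z ^ (q - BiP.tw t (S.b l)) *
      (g.B ^ BiP.tw s (S.a l) * g.Z ^ BiP.tw t (S.b l) * S.e l)
    rw [zpow_sub₀ g.B_ne, zpow_sub₀ g.Z_ne]
    have := zpow_ne_zero (BiP.tw s (S.a l)) g.B_ne
    have := zpow_ne_zero (BiP.tw t (S.b l)) g.Z_ne
    field_simp
  | zero => exact zero_mem _
  | add y z hy hz h1 h2 => exact add_mem (h1 (hS y hy)) (h2 (hS z hz))
  | smul c y hy h1 =>
    have h3 := Submodule.smul_mem _ (algebraMap ℂ ((g.plane h).fc.R s t) c) (h1 (hS y hy))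
    convert h3 using 1
    apply Subtype.ext
    change c • y = algebraMap ℂ K c * y
    rw [Algebra.smul_def]

/-- **Finiteness.** -/
theorem pi_finite {ι : Type} [Finite ι] (S : SplitK g ι) (s t : Bool) :
    ((g.pi h).app ((g.plane h).biP.U s t)).hom.Finite := by
  have h1 := g.fc.finite_app (g.plane h).fc (g.plane_le h) rfl rfl (g.incl_finite h S) s t
  have h2 : (g.plane h).fc.bip.U s t = (g.plane h).biP.U s t :=
    ((g.plane h).fc.bip_U s t).trans ((g.plane h).fc_U s t)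
  have key : ∀ U U' : (XX (N := 3) (Pl.vec g.B g.Z) (Pl.vec0_ne g.B g.Z)).Opens, U = U' →
      ((g.pi h).app U).hom.Finite → ((g.pi h).app U').hom.Finite := by
    rintro U _ rfl h
    exact h
  exact key _ _ h2 h1

end Grid

end M21.E3
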