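import Pool.Agent.H.MP_21b43d_ag.E3.G.Frac
import Pool.Agent.H.MP_21b43d_ag.B.Coh3

/-!
# M21, existence part, S4-D (1): morphisms from a quasi-coherent sheaf to a fractional sheaf

`exists_hom_of_K`: an `𝒪(U)`-linear map `L : Γ(F, U) → K` (`U` affine, contained in the members of an
affine cover) with values in `N_q` on the sections over the members of the cover extends to a
morphism `F ⟶ N.mod`.
-/

open CategoryTheory CategoryTheory.Limits AlgebraicGeometry TopologicalSpace

noncomputable section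

namespace M21.E3

variable {X : Scheme.{0}} [IsIntegral X]

theorem inter_nonempty_HomK {U V : X.Opens} {p q : X} (hp : p ∈ U) (hq : q ∈ V) :
    ∃ w : X, w ∈ U ⊓ V := by
  obtain ⟨z, hz⟩ : ((U ⊓ V : X.Opens) : Set X).Nonempty :=
    nonempty_preirreducible_inter U.2 V.2 ⟨p, hp⟩ ⟨q, hq⟩
  exact ⟨z, hz⟩

theorem toK_ne_zero_HomK {U : X.Opens} {p w : X} (hp : p ∈ U) (f : Γ(X, U))
    (hw : w ∈ X.basicOpen f) : toK hp f ≠ 0 := by
  intro h0
  have h1 : f = 0 := toK_inj hp (by rw [h0, map_zero])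
  rw [h1, Scheme.basicOpen_zero] at hw
  exact hw

omit [IsIntegral X] in
/-- A nonempty open contains a nonempty basic open of an affine open, and functions and sections
extend. -/
theorem exists_basic_HomK {U O : X.Opens} (hU : IsAffineOpen U) {w : X} (hw : w ∈ O) (hwU : w ∈ U) :
    ∃ f : Γ(X, U), w ∈ X.basicOpen f ∧ X.basicOpen f ≤ O := by
  obtain ⟨f, hf, hwf⟩ := hU.exists_basicOpen_le (V := O ⊓ U) ⟨w, ⟨hw, hwU⟩⟩ hwU
  exact ⟨f, hwf, hf.trans inf_le_left⟩

variable {F : X.Modules} {U : X.Opens} {p : X}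

/-- semilinear maps to the function field -/
structure KLin (F : X.Modules) (U : X.Opens) {p : X} (hp : p ∈ U) where
  /-- the map -/
  L : Γ(F, U) → X.functionField
  add : ∀ e e', L (e + e') = L e + L e'
  smul : ∀ (a : Γ(X, U)) e, L (a • e) = toK hp a * L e

namespace KLin

variable {hp : p ∈ U} (L : KLin F U hp)

theorem zero : L.L 0 = 0 := by
  have := L.smul 0 0
  rwa [zero_smul, map_zero, zero_mul] at this

theorem sub (e e' : Γ(F, U)) : L.L (e - e') = L.L e - L.L e' := by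
  rw [eq_sub_iff_add_eq, ← L.add, sub_add_cancel]

/-- sections which agree on a nonempty open have the same value -/
theorem eq_of_res (hF : QC F) (hU : IsAffineOpen U) (e e' : Γ(F, U)) {W : X.Opens} (hW : W ≤ U)
    {w : X} (hw : w ∈ W) (h : res F hW e = res F hW e') : L.L e = L.L e' := by
  obtain ⟨f, hwf, hf⟩ := exists_basic_HomK hU hw (hW hw)
  obtain ⟨n, hn⟩ := hF.tors U hU f (e - e') (by
    rw [res_sub, sub_eq_zero, ← res_res hW hf, h, res_res])
  have h1 := L.smul (f ^ n) (e - e')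
  rw [hn, L.zero, map_pow, L.sub] at h1
  have h2 := toK_ne_zero_HomK hp f hwf
  exact sub_eq_zero.mp ((mul_eq_zero.mp h1.symm).resolve_left (pow_ne_zero n h2))

/-- `g` is the value of the section `s` -/
def Val {O : X.Opens} (s : Γ(F, O)) (g : X.functionField) : Prop :=
  ∃ (W : X.Opens) (hWO : W ≤ O) (hWU : W ≤ U) (w : X) (_ : w ∈ W) (f : Γ(X, U)) (e : Γ(F, U)),
    toK hp f ≠ 0 ∧ res F hWU e = resF hWU f • res F hWO s ∧ L.L e = toK hp f * g

theorem Val.unique (hF : QC F) (hU : IsAffineOpen U) {O : X.Opens} {s : Γ(F, O)}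
    {g g' : X.functionField} (h : L.Val s g) (h' : L.Val s g') : g = g' := by
  obtain ⟨W, hWO, hWU, w, hw, f, e, hf, he, hL⟩ := h
  obtain ⟨W', hWO', hWU', w', hw', f', e', hf', he', hL'⟩ := h'
  obtain ⟨v, hv⟩ := inter_nonempty_HomK hw hw'
  have h1 : L.L (f' • e) = L.L (f • e') := by
    refine L.eq_of_res hF hU _ _ (W := W ⊓ W') (inf_le_left.trans hWU) hv ?_
    rw [res_smul, res_smul, ← res_res hWU inf_le_left, he, ← res_res hWU' inf_le_right, he',
      res_smul, res_smul, res_res, res_res, smul_smul, smul_smul]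
    congr 1
    rw [mul_comm]
    congr 1
    · exact resF_resF hWU inf_le_left f
    · exact (resF_resF hWU' inf_le_right f').symm
  rw [L.smul, L.smul, hL, hL'] at h1
  have h2 : toK hp f' * toK hp f * (g - g') = 0 := by linear_combination h1
  exact sub_eq_zero.mp ((mul_eq_zero.mp h2).resolve_left (mul_ne_zero hf' hf))

/-- a basic open on which finitely many sections extend -/
theorem exists_val (hF : QC F) (hU : IsAffineOpen U) {O : X.Opens} {q : X} (hq : q ∈ O)
    (s : Γ(F, O)) : ∃ g, L.Val s g := by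
  obtain ⟨w, hwO, hwU⟩ := inter_nonempty_HomK hq hp
  obtain ⟨f, hwf, hf⟩ := exists_basic_HomK hU hwO hwU
  obtain ⟨n, e, he⟩ := hF.ext U hU f (res F hf s)
  have h2 : toK hp (f ^ n) ≠ 0 := by
    rw [map_pow]; exact pow_ne_zero n (toK_ne_zero_HomK hp f hwf)
  refine ⟨(toK hp (f ^ n))⁻¹ * L.L e, _, hf, X.basicOpen_le f, w, hwf, f ^ n, e, h2, ?_, ?_⟩
  · rw [he]
    congr 1
    exact (map_pow _ _ _).symm
  · rw [mul_inv_cancel_left₀ h2]

theorem Val.res_HomK {O O' : X.Opens} (h : O' ≤ O) {q : X} (hq : q ∈ O') {s : Γ(F, O)}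
    {g : X.functionField} (hs : L.Val s g) : L.Val (res F h s) g := by
  obtain ⟨W, hWO, hWU, w, hw, f, e, hf, he, hL⟩ := hs
  obtain ⟨v, hv⟩ := inter_nonempty_HomK hw hq
  refine ⟨W ⊓ O', inf_le_right, inf_le_left.trans hWU, v, hv, f, e, hf, ?_, hL⟩
  rw [← res_res hWU inf_le_left, he, res_smul, res_res, res_res]
  congr 1
  exact resF_resF hWU inf_le_left f

theorem Val.add {O : X.Opens} {s s' : Γ(F, O)} {g g' : X.functionField} (h : L.Val s g)
    (h' : L.Val s' g') : L.Val (s + s') (g + g') := by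
  obtain ⟨W, hWO, hWU, w, hw, f, e, hf, he, hL⟩ := h
  obtain ⟨W', hWO', hWU', w', hw', f', e', hf', he', hL'⟩ := h'
  obtain ⟨v, hv⟩ := inter_nonempty_HomK hw hw'
  refine ⟨W ⊓ W', inf_le_left.trans hWO, inf_le_left.trans hWU, v, hv, f * f', f' • e + f • e',
    ?_, ?_, ?_⟩
  · rw [map_mul]; exact mul_ne_zero hf hf'
  · have e1 : resF (inf_le_left.trans hWU : W ⊓ W' ≤ U) (f * f') =
        resF (inf_le_left.trans hWU : W ⊓ W' ≤ U) f *
          resF (inf_le_left.trans hWU : W ⊓ W' ≤ U) f' := map_mul _ _ _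
    rw [e1, res_add, res_smul, res_smul, ← res_res hWU inf_le_left, he,
      ← res_res hWU' inf_le_right, he', res_smul, res_smul, res_res, res_res, res_add, smul_add,
      smul_smul, smul_smul]
    congr 1
    · congr 1
      rw [mul_comm]
      congr 1
      exact resF_resF hWU inf_le_left f
    · congr 1
      congr 1
      exact resF_resF hWU' inf_le_right f'
  · rw [L.add, L.smul, L.smul, hL, hL', map_mul]
    ring

theorem Val.smul (hU : IsAffineOpen U) {O : X.Opens} {q : X} (hq : q ∈ O) (a : Γ(X, O))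
    {s : Γ(F, O)} {g : X.functionField} (h : L.Val s g) : L.Val (a • s) (toK hq a * g) := by
  obtain ⟨W, hWO, hWU, w, hw, f, e, hf, he, hL⟩ := h
  obtain ⟨f1, hwf, hf1⟩ := exists_basic_HomK hU hw (hWU hw)
  obtain ⟨n, a', ha2⟩ : ∃ (n : ℕ) (a' : Γ(X, U)), resF (X.basicOpen_le f1) a' =
      resF (X.basicOpen_le f1) f1 ^ n * resF (hf1.trans hWO) a :=
    (QC.of_isQuasicoherent _ (isCoh_unit X).qcoh).ext U hU f1
      (show Γ(unitMod X, X.basicOpen f1) from resF (hf1.trans hWO) a)
  have h1 := toK_ne_zero_HomK hp f1 hwf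
  have h3 : toK hp a' = toK hp f1 ^ n * toK hq a := by
    have h4 := congrArg (toK hwf) ha2
    rw [map_mul, map_pow, toK_res, toK_res, toK_res] at h4
    exact h4
  refine ⟨X.basicOpen f1, hf1.trans hWO, X.basicOpen_le f1, w, hwf, f1 ^ n * f, a' • e,
    ?_, ?_, ?_⟩
  · rw [map_mul, map_pow]; exact mul_ne_zero (pow_ne_zero n h1) hf
  · have e1 : resF (X.basicOpen_le f1) (f1 ^ n * f) =
        resF (X.basicOpen_le f1) f1 ^ n * resF (X.basicOpen_le f1) f := by
      rw [← map_pow]; exact map_mul _ _ _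
    rw [e1, res_smul]
    change resF (X.basicOpen_le f1) a' • res F (X.basicOpen_le f1) e = _
    rw [ha2, ← res_res hWU hf1, he, res_smul, res_smul, res_res, smul_smul, smul_smul]
    congr 1
    have e2 : X.presheaf.map (homOfLE hf1).op (resF hWU f) = resF (X.basicOpen_le f1) f :=
      resF_resF hWU hf1 f
    rw [e2]
    change resF (X.basicOpen_le f1) f1 ^ n * resF (hf1.trans hWO) a * _ =
      _ * _ * resF (hf1.trans hWO) a
    ring
  · rw [L.smul, hL, h3, map_mul, map_pow]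
    ring

theorem val_self (e : Γ(F, U)) : L.Val e (L.L e) :=
  ⟨U, le_rfl, le_rfl, p, hp, 1, e, by rw [map_one]; exact one_ne_zero, by
    have : resF (le_refl U) (1 : Γ(X, U)) = 1 := map_one _
    rw [this, one_smul], by rw [map_one, one_mul]⟩

end KLin

/-- Extension of a semilinear map to a morphism. -/
theorem exists_hom_of_K (hF : QC F) (hU : IsAffineOpen U) {hp : p ∈ U} (L : KLin F U hp)
    (N : Frac X) {ι : Type} (C : ι → X.Opens) (hC : ∀ i, IsAffineOpen (C i))
    (hc : ∀ x : X, ∃ i, x ∈ C i) (hUC : ∀ i, U ≤ C i)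
    (hmem : ∀ (i : ι) (e : Γ(F, C i)), ∀ q ∈ C i, N.mem q (L.L (res F (hUC i) e))) :
    ∃ ψ : F ⟶ N.mod, ∀ y : Γ(F, U), N.val hp (ψ.app U y) = L.L y := by
  choose φ hφ using fun (O : X.Opens) (q : X) (hq : q ∈ O) (s : Γ(F, O)) => L.exists_val hF hU hq s
  have key : ∀ {O : X.Opens} {q : X} (hq : q ∈ O) (s : Γ(F, O)) (g : X.functionField),
      L.Val s g → φ O q hq s = g := fun hq s g h => KLin.Val.unique L hF hU (hφ _ _ hq s) h
  have hm : ∀ {O : X.Opens} {q : X} (hq : q ∈ O) (s : Γ(F, O)), N.mem q (φ O q hq s) := by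
    intro O q hq s
    obtain ⟨i, hi⟩ := hc q
    obtain ⟨f, hqf, hf⟩ := exists_basic_HomK (hC i) hq hi
    obtain ⟨n, e, he⟩ := hF.ext (C i) (hC i) f (res F hf s)
    have h1 : φ (C i) q hi e = L.L (res F (hUC i) e) := by
      have h2 := KLin.Val.res_HomK L (hUC i) hp (hφ (C i) q hi e)
      exact KLin.Val.unique L hF hU h2 (L.val_self _)
    have h3 : toK hqf (resF (X.basicOpen_le f) f ^ n) * φ O q hq s = φ (C i) q hi e := by
      refine KLin.Val.unique L hF hU (s := res F (X.basicOpen_le f) e) ?_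
        (KLin.Val.res_HomK L (X.basicOpen_le f) hqf (hφ (C i) q hi e))
      rw [he]
      exact KLin.Val.smul L hU hqf _ (KLin.Val.res_HomK L hf hqf (hφ O q hq s))
    have hu : IsUnit (resF (X.basicOpen_le f) f) := by
      have := X.toRingedSpace.isUnit_res_basicOpen f
      exact this
    obtain ⟨v, hv⟩ := hu.pow n
    have h4 : φ O q hq s = toK hqf (↑v⁻¹ : Γ(X, X.basicOpen f)) * L.L (res F (hUC i) e) := by
      rw [← h1, ← h3, ← hv, ← mul_assoc, ← map_mul, Units.inv_mul, map_one, one_mul]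
    rw [h4]
    exact N.smul q _ _ (Reg.toK' hqf _) (hmem i e q hi)
  refine ⟨N.homMk F (fun {O q} hq s => φ O q hq s) (fun {O q q'} hq hq' s =>
      key hq s _ (hφ _ _ hq' s)) hm (fun {O q} hq s t =>
      key hq _ _ (KLin.Val.add L (hφ _ _ hq s) (hφ _ _ hq t))) (fun {O q} hq a s =>
      key hq _ _ (KLin.Val.smul L hU hq a (hφ _ _ hq s))) (fun {O V} h {q} hq s =>
      key hq _ _ (KLin.Val.res_HomK L h hq (hφ _ _ (h hq) s))), fun y => ?_⟩
  rw [N.val_homMk]
  exact key hp y _ (L.val_self y)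

end M21.E3
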