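import Pool.Agent.H.MP_21b43d_ag.E3.G.Cech
import Pool.Agent.H.MP_21b43d_ag.E3.G.Split
import Pool.Agent.H.MP_21b43d_ag.E3.Q.HomK

/-!
# M21, existence part, S4-D (2): duality when the functions on the torus are Laurent polynomials

`BiP.duality_Q`: a nonzero `O(-m, -n) ⟶ F[2]` gives a nonzero `F ⟶ O(-m-2, -n-2)`, `F`
quasi-coherent.
-/

open CategoryTheory CategoryTheory.Limits CategoryTheory.Pretriangulated AlgebraicGeometry
  TopologicalSpace

noncomputable section

namespace M21.E3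

variable {X : Scheme.{0}} [IsIntegral X] [CX X]

namespace BiP

variable (G : BiP X)

/-- The functions on the torus `UU` are the Laurent polynomials in `B`, `Z`. -/
structure Torus : Prop where
  indep : LinearIndependent ℂ (fun x : ℤ × ℤ => G.B ^ x.1 * G.Z ^ x.2)
  span : ∀ g ∈ (FO X).secs G.UU,
    g ∈ Submodule.span ℂ (Set.range fun x : ℤ × ℤ => G.B ^ x.1 * G.Z ^ x.2)

variable {G} in
/-- A split structure sheaf of rank one. -/
theorem Split.torus (S : G.Split (FO X) Unit) (he : S.e () = 1) (hQ : QC (FO X).mod) :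
    G.Torus where
  indep := by
    have h := S.indep.comp (fun x : ℤ × ℤ => ((), x)) fun x x' h => (Prod.mk.inj h).2
    have e : (fun x : ℤ × ℤ => G.B ^ x.1 * G.Z ^ x.2) =
        (fun x : Unit × ℤ × ℤ => G.B ^ x.2.1 * G.Z ^ x.2.2 * S.e x.1) ∘
          (fun x : ℤ × ℤ => ((), x)) := funext fun x => by
      change _ = G.B ^ x.1 * G.Z ^ x.2 * S.e ()
      rw [he, mul_one]
    rw [e]
    exact h
  span g hg := by
    rw [S.secs_UU hQ] at hg
    refine Submodule.span_mono ?_ hg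
    rintro _ ⟨x, rfl⟩
    refine ⟨x.2, ?_⟩
    change _ = G.B ^ x.2.1 * G.Z ^ x.2.2 * S.e ()
    rw [he, mul_one]

/-- the monomial as a function on the torus -/
def mU (x : ℤ × ℤ) : Γ(X, G.UU) :=
  G.bp x.1 (inf_le_left : G.UU ≤ G.V01) * G.zp x.2 (inf_le_right : G.UU ≤ G.W01)

omit [IsIntegral X] [CX X] in
theorem mU_add (x y : ℤ × ℤ) : G.mU (x + y) = G.mU x * G.mU y := by
  unfold mU
  rw [Prod.fst_add, Prod.snd_add, bp_add, zp_add]
  ring

omit [IsIntegral X] [CX X] in
theorem mU_zero : G.mU 0 = 1 := by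
  unfold mU
  rw [Prod.fst_zero, Prod.snd_zero, bp_zero, zp_zero, one_mul]

omit [CX X] in
theorem toK_mU (x : ℤ × ℤ) : toK G.pt_mem (G.mU x) = G.B ^ x.1 * G.Z ^ x.2 := by
  unfold mU
  rw [map_mul, toK_bp, toK_zp]

omit [CX X] in
/-- `B^j` is regular on the chart where it is. -/
theorem reg_Bs (s : Bool) (j : ℤ) (hj : 0 ≤ sg s * j) {q : X} (hq : q ∈ G.V s) :
    Reg q (G.B ^ j) := by
  obtain ⟨N, hN⟩ := Int.eq_ofNat_of_zero_le hj
  have h1 := Reg.toK' hq (G.bc s (le_refl (G.V s)) ^ N)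
  rw [map_pow, toK_bc, ← zpow_natCast, ← zpow_mul] at h1
  have h2 : sg s * (N : ℤ) = j := by
    rw [← hN, ← mul_assoc]
    cases s <;> simp [sg]
  rwa [h2] at h1

omit [CX X] in
theorem reg_Zs (t : Bool) (j : ℤ) (hj : 0 ≤ sg t * j) {q : X} (hq : q ∈ G.W t) :
    Reg q (G.Z ^ j) := by
  obtain ⟨N, hN⟩ := Int.eq_ofNat_of_zero_le hj
  have h1 := Reg.toK' hq (G.zc t (le_refl (G.W t)) ^ N)
  rw [map_pow, toK_zc, ← zpow_natCast, ← zpow_mul] at h1
  have h2 : sg t * (N : ℤ) = j := by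
    rw [← hN, ← mul_assoc]
    cases t <;> simp [sg]
  rwa [h2] at h1

/-- the functionals which vanish on the Čech coboundaries -/
structure Lam (F : X.Modules) (m n : ℤ) where
  /-- the functional -/
  l : Γ(F, G.UU) →ₗ[ℂ] ℂ
  h1 : ∀ x : Γ(F, G.UB false), l (res F (G.UU_leB false) x) = 0
  h2 : ∀ x : Γ(F, G.UB true),
    l (G.zp n (inf_le_right : G.UU ≤ G.W01) • res F (G.UU_leB true) x) = 0
  h3 : ∀ x : Γ(F, G.UZ false), l (res F (G.UU_leZ false) x) = 0
  h4 : ∀ x : Γ(F, G.UZ true),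
    l (G.bp m (inf_le_left : G.UU ≤ G.V01) • res F (G.UU_leZ true) x) = 0

namespace Lam

variable {G} {F : X.Modules} {m n : ℤ} (lam : G.Lam F m n)

/-- the coefficients -/
def co (y : Γ(F, G.UU)) (x : ℤ × ℤ) : ℂ := lam.l (G.mU x • y)

omit [IsIntegral X] in
theorem co_add (y y' : Γ(F, G.UU)) (x : ℤ × ℤ) : lam.co (y + y') x = lam.co y x + lam.co y' x := by
  unfold co
  rw [smul_add, map_add]

omit [IsIntegral X] in
theorem co_smul (c : ℂ) (y : Γ(F, G.UU)) (x : ℤ × ℤ) : lam.co (c • y) x = c * lam.co y x := by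
  unfold co
  rw [smul_comm, map_smul, smul_eq_mul]

omit [IsIntegral X] in
theorem co_mU (y : Γ(F, G.UU)) (x z : ℤ × ℤ) : lam.co (G.mU z • y) x = lam.co y (x + z) := by
  unfold co
  rw [smul_smul, ← mU_add]

/-- the lower bound for the first exponent, `s = 0`: `a < 0`; `s = 1`: `m < a` -/
def Ok (s : Bool) (m a : ℤ) : Prop := if s then m < a else a < 0

omit [IsIntegral X] in
theorem co_B (s t : Bool) (e : Γ(F, G.U s t)) (x : ℤ × ℤ) (hx : ¬ Ok s m x.1) :
    lam.co (res F (G.UU_le s t) e) x = 0 := by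
  unfold co mU
  cases s
  · have hx' : 0 ≤ x.1 := not_lt.mp (by simpa [Ok] using hx)
    obtain ⟨N, hN⟩ := Int.eq_ofNat_of_zero_le hx'
    have h := lam.h3 ((G.bc false (inf_le_left : G.UZ false ≤ G.V false) ^ N *
      G.zp x.2 (inf_le_right : G.UZ false ≤ G.W01)) • res F (G.UZ_le false t) e)
    rw [res_smul, res_res] at h
    have h5 : X.presheaf.map (homOfLE (G.UU_leZ false)).op
        (G.bc false (inf_le_left : G.UZ false ≤ G.V false) ^ N *
          G.zp x.2 (inf_le_right : G.UZ false ≤ G.W01)) =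
        G.bp x.1 (inf_le_left : G.UU ≤ G.V01) * G.zp x.2 (inf_le_right : G.UU ≤ G.W01) := by
      rw [map_mul, map_pow]
      have e1 := G.bc_res false (inf_le_left : G.UZ false ≤ G.V false) (G.UU_leZ false)
      have e2 := G.zp_res x.2 (inf_le_right : G.UZ false ≤ G.W01) (G.UU_leZ false)
      have e3 := G.bc_pow false N (inf_le_left : G.UU ≤ G.V01)
      have e4 : sg false * (N : ℤ) = x.1 := by simp [sg, hN]
      rw [e4] at e3
      rw [← e3]
      exact congrArg₂ (fun a b => a ^ N * b) e1 e2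
    rw [h5] at h
    exact h
  · have hx' : 0 ≤ m - x.1 := sub_nonneg.mpr (not_lt.mp (by simpa [Ok] using hx))
    obtain ⟨N, hN⟩ := Int.eq_ofNat_of_zero_le hx'
    have h := lam.h4 ((G.bc true (inf_le_left : G.UZ true ≤ G.V true) ^ N *
      G.zp x.2 (inf_le_right : G.UZ true ≤ G.W01)) • res F (G.UZ_le true t) e)
    rw [res_smul, res_res, smul_smul] at h
    have h5 : G.bp m (inf_le_left : G.UU ≤ G.V01) *
        X.presheaf.map (homOfLE (G.UU_leZ true)).op
        (G.bc true (inf_le_left : G.UZ true ≤ G.V true) ^ N *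
          G.zp x.2 (inf_le_right : G.UZ true ≤ G.W01)) =
        G.bp x.1 (inf_le_left : G.UU ≤ G.V01) * G.zp x.2 (inf_le_right : G.UU ≤ G.W01) := by
      rw [map_mul, map_pow]
      have e1 := G.bc_res true (inf_le_left : G.UZ true ≤ G.V true) (G.UU_leZ true)
      have e2 := G.zp_res x.2 (inf_le_right : G.UZ true ≤ G.W01) (G.UU_leZ true)
      have e3 := G.bc_pow true N (inf_le_left : G.UU ≤ G.V01)
      have e4 : x.1 = m + sg true * (N : ℤ) := by simp [sg, ← hN]
      rw [e4, bp_add, ← e3, mul_assoc]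
      exact congrArg₂ (fun a b => G.bp m (inf_le_left : G.UU ≤ G.V01) * (a ^ N * b)) e1 e2
    rw [h5] at h
    exact h

omit [IsIntegral X] in
theorem co_Z (s t : Bool) (e : Γ(F, G.U s t)) (x : ℤ × ℤ) (hx : ¬ Ok t n x.2) :
    lam.co (res F (G.UU_le s t) e) x = 0 := by
  unfold co mU
  cases t
  · have hx' : 0 ≤ x.2 := not_lt.mp (by simpa [Ok] using hx)
    obtain ⟨N, hN⟩ := Int.eq_ofNat_of_zero_le hx'
    have h := lam.h1 ((G.bp x.1 (inf_le_left : G.UB false ≤ G.V01) *
      G.zc false (inf_le_right : G.UB false ≤ G.W false) ^ N) • res F (G.UB_le s false) e)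
    rw [res_smul, res_res] at h
    have h5 : X.presheaf.map (homOfLE (G.UU_leB false)).op
        (G.bp x.1 (inf_le_left : G.UB false ≤ G.V01) *
          G.zc false (inf_le_right : G.UB false ≤ G.W false) ^ N) =
        G.bp x.1 (inf_le_left : G.UU ≤ G.V01) * G.zp x.2 (inf_le_right : G.UU ≤ G.W01) := by
      rw [map_mul, map_pow]
      have e1 := G.zc_res false (inf_le_right : G.UB false ≤ G.W false) (G.UU_leB false)
      have e2 := G.bp_res x.1 (inf_le_left : G.UB false ≤ G.V01) (G.UU_leB false)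
      have e3 := G.zc_pow false N (inf_le_right : G.UU ≤ G.W01)
      have e4 : sg false * (N : ℤ) = x.2 := by simp [sg, hN]
      rw [e4] at e3
      rw [← e3]
      exact congrArg₂ (fun a b => a * b ^ N) e2 e1
    rw [h5] at h
    exact h
  · have hx' : 0 ≤ n - x.2 := sub_nonneg.mpr (not_lt.mp (by simpa [Ok] using hx))
    obtain ⟨N, hN⟩ := Int.eq_ofNat_of_zero_le hx'
    have h := lam.h2 ((G.bp x.1 (inf_le_left : G.UB true ≤ G.V01) *
      G.zc true (inf_le_right : G.UB true ≤ G.W true) ^ N) • res F (G.UB_le s true) e)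
    rw [res_smul, res_res, smul_smul] at h
    have h5 : G.zp n (inf_le_right : G.UU ≤ G.W01) *
        X.presheaf.map (homOfLE (G.UU_leB true)).op
        (G.bp x.1 (inf_le_left : G.UB true ≤ G.V01) *
          G.zc true (inf_le_right : G.UB true ≤ G.W true) ^ N) =
        G.bp x.1 (inf_le_left : G.UU ≤ G.V01) * G.zp x.2 (inf_le_right : G.UU ≤ G.W01) := by
      rw [map_mul, map_pow]
      have e1 := G.zc_res true (inf_le_right : G.UB true ≤ G.W true) (G.UU_leB true)
      have e2 := G.bp_res x.1 (inf_le_left : G.UB true ≤ G.V01) (G.UU_leB true)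
      have e3 := G.zc_pow true N (inf_le_right : G.UU ≤ G.W01)
      have e4 : x.2 = n + sg true * (N : ℤ) := by simp [sg, ← hN]
      rw [e4, zp_add, ← e3, mul_left_comm]
      exact congrArg₂ (fun a b => a * (G.zp n (inf_le_right : G.UU ≤ G.W01) * b ^ N)) e2 e1
    rw [h5] at h
    exact h

omit [IsIntegral X] [CX X] in
/-- the extension of `y` to a chart -/
theorem exists_shift (hF : QC F) (s t : Bool) (y : Γ(F, G.UU)) :
    ∃ (k : ℕ) (e : Γ(F, G.U s t)), res F (G.UU_le s t) e = G.mU (sg s * k, sg t * k) • y := by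
  obtain ⟨k, e, he⟩ := hF.ext' (G.aff s t) (G.bc s inf_le_left * G.zc t inf_le_right)
    (G.UU_le s t) (G.basicOpen_bc_zc s t).symm y
  refine ⟨k, e, ?_⟩
  rw [he]
  congr 1
  unfold mU
  rw [← bc_pow, ← zc_pow, ← mul_pow]
  congr 1
  have e1 := G.bc_res s (inf_le_left : G.U s t ≤ G.V s) (G.UU_le s t)
  have e2 := G.zc_res t (inf_le_right : G.U s t ≤ G.W t) (G.UU_le s t)
  exact (map_mul _ _ _).trans (congrArg₂ (· * ·) e1 e2)

omit [IsIntegral X] in
theorem finite_co (hF : QC F) (y : Γ(F, G.UU)) : (Function.support (lam.co y)).Finite := by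
  obtain ⟨k, e, he⟩ := exists_shift hF false false y
  obtain ⟨k', e', he'⟩ := exists_shift hF true true y
  refine Set.Finite.subset (Set.finite_Icc ((m - k', n - k') : ℤ × ℤ) (k, k)) fun x hx => ?_
  have h1 : lam.co y x = lam.co (res F (G.UU_le false false) e) (x - (sg false * k, sg false * k)) := by
    rw [he, co_mU, sub_add_cancel]
  have h2 : lam.co y x = lam.co (res F (G.UU_le true true) e') (x - (sg true * k', sg true * k')) := by
    rw [he', co_mU, sub_add_cancel]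
  have hx0 : lam.co y x ≠ 0 := hx
  have a1 : Ok false m (x - (sg false * k, sg false * k)).1 := by
    by_contra h; exact hx0 (h1.trans (lam.co_B _ _ e _ h))
  have a2 : Ok false n (x - (sg false * k, sg false * k)).2 := by
    by_contra h; exact hx0 (h1.trans (lam.co_Z _ _ e _ h))
  have a3 : Ok true m (x - (sg true * k', sg true * k')).1 := by
    by_contra h; exact hx0 (h2.trans (lam.co_B _ _ e' _ h))
  have a4 : Ok true n (x - (sg true * k', sg true * k')).2 := by
    by_contra h; exact hx0 (h2.trans (lam.co_Z _ _ e' _ h))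
  simp only [Ok, sg, Prod.fst_sub, Prod.snd_sub, if_true, Bool.false_eq_true, if_false, one_mul,
    neg_one_mul, sub_neg_eq_add] at a1 a2 a3 a4
  refine ⟨Prod.mk_le_mk.mpr ⟨?_, ?_⟩, Prod.mk_le_mk.mpr ⟨?_, ?_⟩⟩ <;> linarith

variable (G) in
/-- the dual monomial -/
def gm (x : ℤ × ℤ) : X.functionField := G.B ^ (-x.1 - 1) * G.Z ^ (-x.2 - 1)

/-- the dual map -/
def L (y : Γ(F, G.UU)) : X.functionField := ∑ᶠ x : ℤ × ℤ, lam.co y x • gm G x

theorem finite_L (hF : QC F) (y : Γ(F, G.UU)) :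
    (Function.support (fun x => lam.co y x • gm G x)).Finite :=
  (lam.finite_co hF y).subset fun x hx h0 => hx (by
    change lam.co y x • gm G x = 0
    rw [h0, zero_smul])

theorem L_add (hF : QC F) (y y' : Γ(F, G.UU)) : lam.L (y + y') = lam.L y + lam.L y' := by
  unfold L
  rw [← finsum_add_distrib (lam.finite_L hF y) (lam.finite_L hF y')]
  exact finsum_congr fun x => by rw [co_add, add_smul]

theorem L_smulC (hF : QC F) (c : ℂ) (y : Γ(F, G.UU)) : lam.L (c • y) = c • lam.L y := by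
  unfold L
  rw [smul_finsum' c (lam.finite_L hF y)]
  exact finsum_congr fun x => by rw [co_smul, mul_smul]

omit [CX X] in
theorem gm_sub (x z : ℤ × ℤ) : gm G (x - z) = G.B ^ z.1 * G.Z ^ z.2 * gm G x := by
  unfold gm
  rw [Prod.fst_sub, Prod.snd_sub]
  have e1 : -(x.1 - z.1) - 1 = z.1 + (-x.1 - 1) := by ring
  have e2 : -(x.2 - z.2) - 1 = z.2 + (-x.2 - 1) := by ring
  rw [e1, e2, zpow_add₀ G.B_ne, zpow_add₀ G.Z_ne]
  ring

theorem L_mU (z : ℤ × ℤ) (y : Γ(F, G.UU)) :
    lam.L (G.mU z • y) = toK G.pt_mem (G.mU z) * lam.L y := by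
  unfold L
  rw [mul_finsum, ← finsum_comp_equiv (Equiv.addRight z)
    (f := fun x => toK G.pt_mem (G.mU z) * (lam.co y x • gm G x))]
  refine finsum_congr fun x => ?_
  have h1 : gm G x = G.B ^ z.1 * G.Z ^ z.2 * gm G (x + z) := by
    rw [← gm_sub, add_sub_cancel_right]
  rw [co_mU, toK_mU, h1]
  exact (mul_smul_comm _ _ _).symm

theorem L_smul (T : G.Torus) (hF : QC F) (a : Γ(X, G.UU)) (y : Γ(F, G.UU)) :
    lam.L (a • y) = toK G.pt_mem a * lam.L y := by
  have h1 : toK G.pt_mem a ∈ Submodule.span ℂ (Set.range fun x : ℤ × ℤ => G.B ^ x.1 * G.Z ^ x.2) :=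
    T.span _ fun p hp => Reg.toK' (U := G.UU) hp a
  have h2 : a ∈ Submodule.span ℂ (Set.range G.mU) := by
    have h3 : Submodule.map (toKA G.pt_mem).toLinearMap (Submodule.span ℂ (Set.range G.mU)) =
        Submodule.span ℂ (Set.range fun x : ℤ × ℤ => G.B ^ x.1 * G.Z ^ x.2) := by
      rw [Submodule.map_span, ← Set.range_comp]
      congr 2
      exact funext fun x => G.toK_mU x
    rw [← h3] at h1
    obtain ⟨a', ha', e⟩ := h1
    have h4 : a' = a := toK_inj G.pt_mem e
    rwa [h4] at ha'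
  clear h1
  induction h2 using Submodule.span_induction with
  | mem x hx =>
    obtain ⟨z, rfl⟩ := hx
    exact lam.L_mU z y
  | zero =>
    have h0 := lam.L_smulC hF 0 y
    rw [zero_smul, zero_smul] at h0
    rw [zero_smul, map_zero, zero_mul, h0]
  | add x x' _ _ hx hx' => rw [add_smul, lam.L_add hF, hx, hx', map_add, add_mul]
  | smul c x _ hx =>
    have h5 : toK G.pt_mem (c • x) = c • toK G.pt_mem x := map_smul (toKA G.pt_mem) c x
    rw [smul_assoc, lam.L_smulC hF, hx, h5, smul_mul_assoc]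

/-- the dual map as a semilinear map -/
def klin (T : G.Torus) (hF : QC F) : KLin F G.UU G.pt_mem where
  L := lam.L
  add := lam.L_add hF
  smul := lam.L_smul T hF

theorem L_ne_zero (T : G.Torus) (hF : QC F) (y : Γ(F, G.UU)) (hy : lam.l y ≠ 0) :
    lam.L y ≠ 0 := by
  intro h0
  have hind : LinearIndependent ℂ (gm G) :=
    T.indep.comp (fun x : ℤ × ℤ => (-x.1 - 1, -x.2 - 1)) (fun x x' h => by
      obtain ⟨h1, h2⟩ := Prod.mk.inj h
      exact Prod.ext (by linarith) (by linarith))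
  have h1 : lam.L y = ∑ x ∈ (lam.finite_co hF y).toFinset, lam.co y x • gm G x := by
    refine finsum_eq_sum_of_support_subset _ fun x hx => ?_
    rw [Set.Finite.coe_toFinset]
    intro h2
    refine hx ?_
    change lam.co y x • gm G x = 0
    rw [h2, zero_smul]
  rw [h0] at h1
  have h3 : lam.co y 0 = lam.l y := by
    unfold co
    rw [mU_zero, one_smul]
  have h4 := linearIndependent_iff'.mp hind _ (lam.co y) h1.symm 0 (by
    rw [Set.Finite.mem_toFinset, Function.mem_support, h3]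
    exact hy)
  exact hy (h3 ▸ h4)

theorem L_mem (s t : Bool) (e : Γ(F, G.U s t)) {q : X} (hq : q ∈ G.U s t) :
    (G.OF (-(m + 2)) (-(n + 2))).mem q (lam.L (res F (G.UU_le s t) e)) := by
  unfold L
  refine finsum_induction (fun g => (G.OF (-(m + 2)) (-(n + 2))).mem q g) (Frac.zero _ q)
    (fun g g' h h' => Frac.add _ q g g' h h') fun x => ?_
  by_cases h1 : Ok s m x.1
  swap
  · rw [lam.co_B s t e x h1, zero_smul]
    exact Frac.zero _ q
  by_cases h2 : Ok t n x.2
  swap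
  · rw [lam.co_Z s t e x h2, zero_smul]
    exact Frac.zero _ q
  refine Frac.smul_memC _ q _ _ ((G.OF_mem_iff _ _ hq _).mpr ?_)
  have e1 : gm G x * G.B ^ (-tw s (-(m + 2))) * G.Z ^ (-tw t (-(n + 2))) =
      G.B ^ (-x.1 - 1 - tw s (-(m + 2))) * G.Z ^ (-x.2 - 1 - tw t (-(n + 2))) := by
    unfold gm
    rw [sub_eq_add_neg (-x.1 - 1), sub_eq_add_neg (-x.2 - 1), zpow_add₀ G.B_ne, zpow_add₀ G.Z_ne]
    ring
  rw [e1]
  refine Reg.mul (G.reg_Bs s _ ?_ hq.1) (G.reg_Zs t _ ?_ hq.2)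
  · cases s
    · simp only [Ok, sg, tw, Bool.false_eq_true, if_false] at h1 ⊢
      linarith
    · simp only [Ok, sg, tw, if_true] at h1 ⊢
      linarith
  · cases t
    · simp only [Ok, sg, tw, Bool.false_eq_true, if_false] at h2 ⊢
      linarith
    · simp only [Ok, sg, tw, if_true] at h2 ⊢
      linarith

end Lam

/-- Duality on `ℙ¹ × ℙ¹`: a nonzero `O(-m, -n) ⟶ F[2]` gives a nonzero `F ⟶ O(-m-2, -n-2)`. -/
theorem duality_Q (T : G.Torus) {F : X.Modules} (hF : QC F) (m n : ℤ)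
    (φ : G.LL m n ⟶ (SS F)⟦(2 : ℤ)⟧) (hφ : φ ≠ 0) :
    ∃ ψ : F ⟶ G.OO (-(m + 2)) (-(n + 2)), ψ ≠ 0 := by
  obtain ⟨c, hc, hker⟩ := G.exists_H2 hF m n
  obtain ⟨y, hy⟩ := hc φ
  have hf : ∃ f : Module.Dual ℂ (G.LL m n ⟶ (SS F)⟦(2 : ℤ)⟧), f φ ≠ 0 := by
    by_contra h
    exact hφ ((Module.forall_dual_apply_eq_zero_iff ℂ φ).mp fun f => by
      by_contra h'
      exact h ⟨f, h'⟩)
  obtain ⟨f, hf⟩ := hf
  have hl : ∀ y, c y = 0 → (f.comp c) y = 0 := fun y h => by
    rw [LinearMap.comp_apply, h, map_zero]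
  let lam : G.Lam F m n :=
    { l := f.comp c
      h1 := fun x => hl _ ((hker _).mpr ⟨x, 0, 0, 0, by
        rw [res_zero, res_zero, res_zero, smul_zero, smul_zero, add_zero, add_zero, add_zero]⟩)
      h2 := fun x => hl _ ((hker _).mpr ⟨0, x, 0, 0, by
        rw [res_zero, res_zero, res_zero, smul_zero, zero_add, add_zero, add_zero]⟩)
      h3 := fun x => hl _ ((hker _).mpr ⟨0, 0, x, 0, by
        rw [res_zero, res_zero, res_zero, smul_zero, smul_zero, add_zero, zero_add, zero_add]⟩)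
      h4 := fun x => hl _ ((hker _).mpr ⟨0, 0, 0, x, by
        rw [res_zero, res_zero, res_zero, smul_zero, add_zero, zero_add, zero_add]⟩) }
  obtain ⟨ψ, hψ⟩ := exists_hom_of_K hF G.aff_UU (lam.klin T hF) (G.OF (-(m + 2)) (-(n + 2)))
    (fun i : Bool × Bool => G.U i.1 i.2) (fun i => G.aff i.1 i.2) (fun p => by
      obtain ⟨s, t, h⟩ := G.exists_mem_U p
      exact ⟨(s, t), h⟩) (fun i => G.UU_le i.1 i.2) (fun i e q hq => lam.L_mem i.1 i.2 e hq)
  refine ⟨ψ, fun h0 => ?_⟩
  have h1 : lam.L y ≠ 0 := lam.L_ne_zero T hF y (by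
    change f (c y) ≠ 0
    rw [hy]
    exact hf)
  refine h1 ((hψ y).symm.trans ?_)
  rw [h0]
  rfl

end BiP

end M21.E3
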