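import Pool.Agent.H.MP_21b43d_ag.E3.G.Split
import Pool.Agent.H.MP_21b43d_ag.X.Val
import Pool.Agent.H.MP_21b43d_ag.X.Str

/-!
# M21, existence part: the function field and a dominant `K`-point

`X` integral, `ξ : Spec K ⟶ X` dominant: the embedding `ffm ξ : X.functionField →+* K` (an algebra
homomorphism `ffA ξ` over `ℂ`), with `ffm ξ (toK s) = rho ξ s`.
-/

set_option autoImplicit false

open CategoryTheory CategoryTheory.Limits AlgebraicGeometry TopologicalSpace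

noncomputable section

namespace M21.E3

variable {X : Scheme.{0}} [IsIntegral X] {K : Type} [Field K] (ξ : Spec (.of K) ⟶ X) [IsDominant ξ]

omit [IsIntegral X] [IsDominant ξ] in
theorem rho_resF {U V : X.Opens} (h : V ≤ U) (hV : ⊤ ≤ ξ ⁻¹ᵁ V) (hU : ⊤ ≤ ξ ⁻¹ᵁ U) (s : Γ(X, U)) :
    M21X.rho ξ V hV (resF h s) = M21X.rho ξ U hU s :=
  M21X.rho_res ξ V U h hV hU s

/-- the image of the unique point of `Spec K` -/
def gp : X := ξ (IsLocalRing.closedPoint K)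

omit [IsIntegral X] [IsDominant ξ] in
theorem gp_mem {U : X.Opens} (hU : ⊤ ≤ ξ ⁻¹ᵁ U) : gp ξ ∈ U := hU trivial

theorem exists_ffm : ∃ ψ : X.functionField →+* K, ∀ (U : X.Opens) (p : X) (hp : p ∈ U)
    (hU : ⊤ ≤ ξ ⁻¹ᵁ U) (a : Γ(X, U)), ψ (toK hp a) = M21X.rho ξ U hU a := by
  obtain ⟨_, ⟨U₀, hU₀, rfl⟩, hp₀, -⟩ := X.isBasis_affineOpens.exists_subset_of_mem_open
    (Set.mem_univ (gp ξ)) isOpen_univ
  have hU₀' : ⊤ ≤ ξ ⁻¹ᵁ U₀ := M21X.top_le_of_nonempty ξ U₀ _ hp₀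
  have : Nonempty U₀ := ⟨⟨_, hp₀⟩⟩
  have : IsFractionRing Γ(X, U₀) X.functionField :=
    functionField_isFractionRing_of_isAffineOpen X U₀ hU₀
  have hinj := M21X.rho_inj ξ U₀ hU₀'
  let ψ : X.functionField →+* K := IsFractionRing.lift (A := Γ(X, U₀)) (K := X.functionField)
    (g := M21X.rho ξ U₀ hU₀') hinj
  have h0 : ∀ a : Γ(X, U₀), ψ (toK hp₀ a) = M21X.rho ξ U₀ hU₀' a := fun a =>
    IsFractionRing.lift_algebraMap (A := Γ(X, U₀)) (K := X.functionField) hinj a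
  refine ⟨ψ, fun U p hp hU a => ?_⟩
  obtain ⟨x, y, hy, hxy⟩ := IsFractionRing.div_surjective (A := Γ(X, U₀)) (toK hp a)
  have hy0 : y ≠ 0 := nonZeroDivisors.ne_zero hy
  have hx : toK hp₀ x = toK hp a * toK hp₀ y := by
    have h1 : algebraMap Γ(X, U₀) X.functionField y ≠ 0 := by
      rw [Ne, IsFractionRing.to_map_eq_zero_iff]
      exact hy0
    rw [div_eq_iff h1] at hxy
    exact hxy
  have hW : ⊤ ≤ ξ ⁻¹ᵁ (U ⊓ U₀) := fun q hq => ⟨hU hq, hU₀' hq⟩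
  have hpW : gp ξ ∈ U ⊓ U₀ := gp_mem ξ hW
  have hx' : resF (inf_le_right : U ⊓ U₀ ≤ U₀) x =
      resF (inf_le_left : U ⊓ U₀ ≤ U) a * resF (inf_le_right : U ⊓ U₀ ≤ U₀) y := by
    apply toK_inj hpW
    rw [map_mul, toK_res, toK_res, toK_res]
    exact hx
  have h3 := congrArg (M21X.rho ξ _ hW) hx'
  rw [map_mul, rho_resF ξ inf_le_right hW hU₀', rho_resF ξ inf_le_left hW hU,
    rho_resF ξ inf_le_right hW hU₀', ← h0, hx, map_mul, h0] at h3
  have h4 : M21X.rho ξ U₀ hU₀' y ≠ 0 := by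
    intro h
    apply hy0
    apply hinj
    rw [h, map_zero]
  exact mul_right_cancel₀ h4 h3

/-- the embedding of the function field given by a dominant `K`-point -/
def ffm : X.functionField →+* K := (exists_ffm ξ).choose

theorem ffm_toK {U : X.Opens} {p : X} (hp : p ∈ U) (hU : ⊤ ≤ ξ ⁻¹ᵁ U) (a : Γ(X, U)) :
    ffm ξ (toK hp a) = M21X.rho ξ U hU a := (exists_ffm ξ).choose_spec U p hp hU a

theorem ffm_inj : Function.Injective (ffm ξ) := (ffm ξ).injective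

/-- The values of functions on `U`. -/
theorem ffm_mem_iff {U : X.Opens} {p : X} (hp : p ∈ U) (hU : ⊤ ≤ ξ ⁻¹ᵁ U) (g : X.functionField) :
    ffm ξ g ∈ (M21X.rho ξ U hU).range ↔ ∀ q ∈ U, Reg q g := by
  constructor
  · rintro ⟨a, ha⟩ q hq
    rw [← ffm_toK ξ hp hU] at ha
    exact ⟨U, hq, a, ffm_inj ξ ha⟩
  · intro h
    obtain ⟨a, rfl⟩ := exists_of_reg hp g h
    exact ⟨a, (ffm_toK ξ hp hU a).symm⟩

theorem exists_ffm_eq {U : X.Opens} {p : X} (hp : p ∈ U) (hU : ⊤ ≤ ξ ⁻¹ᵁ U) (x : K)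
    (hx : x ∈ (M21X.rho ξ U hU).range) : ∃ g : X.functionField, ffm ξ g = x := by
  obtain ⟨a, rfl⟩ := hx
  exact ⟨toK hp a, ffm_toK ξ hp hU a⟩

variable [CX X] [Algebra ℂ K]

omit [IsIntegral X] [IsDominant ξ] in
/-- constants -/
theorem rho_cr (hξ : ξ ≫ CX.f = Spec.map (CommRingCat.ofHom (algebraMap ℂ K))) (c : ℂ)
    (hU : ⊤ ≤ ξ ⁻¹ᵁ (⊤ : X.Opens)) : M21X.rho ξ ⊤ hU (cr ⊤ c) = algebraMap ℂ K c := by
  have h1 : (cr (⊤ : X.Opens) c) = (CX.f (X := X)).appTop ((Scheme.ΓSpecIso (.of ℂ)).inv c) := by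
    change X.presheaf.map (homOfLE (le_top : (⊤ : X.Opens) ≤ ⊤)).op
      ((CX.f (X := X)).appTop ((Scheme.ΓSpecIso (.of ℂ)).inv c)) = _
    have : (homOfLE (le_top : (⊤ : X.Opens) ≤ ⊤)).op = 𝟙 _ := rfl
    rw [this, X.presheaf.map_id]
    rfl
  rw [h1]
  have h2 : ξ.appLE ⊤ ⊤ hU = ξ.appTop := ξ.appLE_eq_app
  have h3 := Scheme.ΓSpecIso_inv_naturality (CommRingCat.ofHom (algebraMap ℂ K))
  have h4 : (Scheme.ΓSpecIso (.of ℂ)).inv ≫ (CX.f (X := X)).appTop ≫ ξ.appTop ≫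
      (Scheme.ΓSpecIso (.of K)).hom = CommRingCat.ofHom (algebraMap ℂ K) := by
    have h5 : (CX.f (X := X)).appTop ≫ ξ.appTop =
        (Spec.map (CommRingCat.ofHom (algebraMap ℂ K))).appTop := by
      rw [← Scheme.Hom.comp_appTop, hξ]
    rw [← Category.assoc (CX.f (X := X)).appTop, h5, ← Category.assoc, ← h3, Category.assoc,
      Iso.inv_hom_id, Category.comp_id]
  rw [M21X.rho, h2]
  exact congrArg (fun g : CommRingCat.of ℂ ⟶ CommRingCat.of K => g.hom c) h4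

/-- the embedding of the function field as an algebra homomorphism -/
def ffA (hξ : ξ ≫ CX.f = Spec.map (CommRingCat.ofHom (algebraMap ℂ K))) :
    X.functionField →ₐ[ℂ] K :=
  { ffm ξ with
    commutes' := fun c =>
      (ffm_toK ξ (U := (⊤ : X.Opens)) (p := genericPoint X) trivial (fun _ _ => trivial)
        (cr ⊤ c)).trans (rho_cr ξ hξ c _) }

theorem ffA_apply (hξ : ξ ≫ CX.f = Spec.map (CommRingCat.ofHom (algebraMap ℂ K)))
    (g : X.functionField) : ffA ξ hξ g = ffm ξ g := rfl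

end M21.E3
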