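import Pool.Agent.H.MP_21b43d_ag.X.Str

/-!
# M21, existence part: the closure of a `K`-point is noetherian
-/

set_option autoImplicit false

open CategoryTheory AlgebraicGeometry

namespace M21.E3

open M21X

instance instNoethXX {N : ℕ} {K : Type} [Field K] [Algebra ℂ K] (v : Fin (N + 1) → K)
    (hv : v 0 ≠ 0) : IsLocallyNoetherian (XX v hv) :=
  LocallyOfFiniteType.isLocallyNoetherian (XX.str v hv)

end M21.E3
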