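import Pool.Agent.H.MP_21b43d_ag.E3.G.MainG
import Pool.Agent.H.MP_21b43d_ag.E3.Q.Bi
import Pool.Agent.H.MP_21b43d_ag.E3.Q.Noe
import Pool.Agent.H.MP_21b43d_ag.X.FinX

/-!
# M21, existence part: stability conditions on the bielliptic surface
-/

set_option autoImplicit false

open CategoryTheory CategoryTheory.Limits AlgebraicGeometry TopologicalSpace

noncomputable section

namespace M21.E3

open M21X

/-- **There are stability conditions on the bielliptic surface.** -/
theorem exists_stab_bielliptic {K : Type} [Field K] [Algebra ℂ K] (q : Quad K) (h : q.Good) :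
    Nonempty (StabilityCondition q.str) :=
  BiP.exists_stabilityCondition (X := q.XX) (Bi.split h).split Bi.sum_eq

end M21.E3
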