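import Pool.Agent.H.MP_21b43d_ag.E3.S4.Asm4
import Pool.Agent.H.MP_21b43d_ag.E3.Q.Cov
import Pool.Agent.H.MP_21b43d_ag.E3.Q.Noe

/-!
# M21, existence part: stability conditions on surfaces with a grid

If the chart rings of a grid with algebraically independent coordinates are spans of monomials
`B^p Z^q e_l`, `l` in a finite set, there are stability conditions on the closure of the point.
-/

set_option autoImplicit false

open CategoryTheory CategoryTheory.Limits AlgebraicGeometry TopologicalSpace

noncomputable section

namespace M21.E3

open M21X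

/-- **Existence of stability conditions.** -/
theorem Grid.exists_stab {N : ℕ} {K : Type} [Field K] [Algebra ℂ K] {v : Fin (N + 1) → K}
    {hv : v 0 ≠ 0} (g : Grid v hv) (h : AlgebraicIndependent ℂ ![g.B, g.Z]) {ι : Type} [Fintype ι]
    (S : SplitK g ι) : Nonempty (StabilityCondition (XX.str v hv)) := by
  obtain ⟨T, -⟩ := g.exists_splitPull h S
  exact exists_stabilityCondition_cover (g.pi h) (g.pi_CX h).symm (g.plane h).biP (g.pi_aff h)
    (g.pi_finite h S) (gp (XX.pt v hv)) (g.pi_pt_mem h) (Pl.split h).split
    ⟨Pl.split_e h, rfl, rfl⟩ T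

end M21.E3
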