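import Pool.Agent.H.MP_21b43d_ag.E3.Q.FF
import Pool.Agent.H.MP_21b43d_ag.X.VX

/-!
# M21, existence part: two covers and split structure sheaf from subrings of a field

`XX v hv`: the closure of a `K`-point of projective space. `Grid v hv`: four homogeneous polynomials
`f s t` of the same degree without common zeros on `XX v hv` with
`f 1 t = B^m f 0 t`, `f s 1 = Z^n f s 0` at `v`; it gives `BiP (XX v hv)` with charts
`D₊(f s t)`. `SplitK`: the chart rings are the spans of the monomials `B^p Z^q e_l`; it gives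
`Split (FO X) ι`.
-/

set_option autoImplicit false

open CategoryTheory CategoryTheory.Limits AlgebraicGeometry TopologicalSpace MvPolynomial

noncomputable section

namespace M21.E3

open M21X

variable {N : ℕ} {K : Type} [Field K] [Algebra ℂ K]

instance instCXXX (v : Fin (N + 1) → K) (hv : v 0 ≠ 0) : CX (XX v hv) := ⟨XX.str v hv⟩

/-- Four charts of the closure of a `K`-point, with two coordinates. -/
structure Grid (v : Fin (N + 1) → K) (hv : v 0 ≠ 0) where
  /-- the degree -/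
  d : ℕ
  /-- the polynomials -/
  f : Bool → Bool → MvPolynomial (Fin (N + 1)) ℂ
  d_pos : 0 < d
  hf : ∀ s t, f s t ∈ gr N d
  ne : ∀ s t, aeval v (f s t) ≠ 0
  /-- the first coordinate -/
  B : K
  /-- the second coordinate -/
  Z : K
  /-- the first exponent -/
  m : ℕ
  /-- the second exponent -/
  n : ℕ
  m_pos : 0 < m
  n_pos : 0 < n
  hB : ∀ t, aeval v (f true t) = B ^ m * aeval v (f false t)
  hZ : ∀ s, aeval v (f s true) = Z ^ n * aeval v (f s false)
  memB : ∀ s t, B ^ BiP.sg s ∈ RR v (f s t) (ne s t)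
  memZ : ∀ s t, Z ^ BiP.sg t ∈ RR v (f s t) (ne s t)
  cover : ∀ x : XX v hv, ∃ s t, x ∈ UU v hv (f s t)

/-- the value of a fraction of homogeneous polynomials -/
theorem val_frac (v : Fin (N + 1) → K) (hv : v 0 ≠ 0) {f g : MvPolynomial (Fin (N + 1)) ℂ}
    {d e : ℕ} (hf : f ∈ gr N d) (hg : g ∈ gr N e) (hd : 0 < d) (he : 0 < e)
    {z : XX v hv} (hz : z ∈ UU v hv f) :
    ∃ a, Val (XX.pt v hv) z (aeval v g ^ d / aeval v f ^ e) a ∧ (a = 0 ↔ z ∉ UU v hv g) := by
  have hf0 := aeval_ne_of_mem v hv hf hd hz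
  have hU := pt_mem_UU v hv f hf0 hf hd
  have h1 := rho_emb v hv f hf0 hf hd (Proj.awayToSection (gr N) f
      (HomogeneousLocalization.Away.isLocalizationElem hf hg))
  have h2 := evA_eq v hv f hf0 hf hd (xiP_top_le v hv f hf0 hf hd)
  have h3 : rho (xiP v hv) _ (xiP_top_le v hv f hf0 hf hd) (Proj.awayToSection (gr N) f
      (HomogeneousLocalization.Away.isLocalizationElem hf hg)) =
      aeval v g ^ d / aeval v f ^ e := by
    have h4 : rho (xiP v hv) _ (xiP_top_le v hv f hf0 hf hd) (Proj.awayToSection (gr N) f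
      (HomogeneousLocalization.Away.isLocalizationElem hf hg)) =
      evA v f hf0 (HomogeneousLocalization.Away.isLocalizationElem hf hg) := by
      rw [← h2]
      rfl
    rw [h4, HomogeneousLocalization.Away.isLocalizationElem, evA_mk, map_pow]
  rw [h3] at h1
  refine ⟨_, ⟨UU v hv f, hz, hU, _, h1, rfl⟩, ?_⟩
  have h6 := Scheme.evaluation_eq_zero_iff_notMem_basicOpen (XX v hv) z hz
    ((XX.emb v hv).app _ (Proj.awayToSection (gr N) f
      (HomogeneousLocalization.Away.isLocalizationElem hf hg)))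
  refine h6.trans (not_congr ?_)
  have h7 := Scheme.preimage_basicOpen (XX.emb v hv) (U := Proj.basicOpen (gr N) f)
    (Proj.awayToSection (gr N) f (HomogeneousLocalization.Away.isLocalizationElem hf hg))
  have h8 := mem_basicOpen_awayToSection f g hf hg hd he (XX.emb v hv z) hz
  exact (SetLike.ext_iff.1 h7 z).symm.trans h8

namespace Grid

variable {v : Fin (N + 1) → K} {hv : v 0 ≠ 0} (g : Grid v hv)

/-- the prime ideal of a point -/
def PI (_ : Grid v hv) (y : XX v hv) : Ideal (MvPolynomial (Fin (N + 1)) ℂ) :=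
  (XX.emb v hv y).asHomogeneousIdeal.toIdeal

instance (y : XX v hv) : (g.PI y).IsPrime := (XX.emb v hv y).isPrime

theorem mem_UU (y : XX v hv) (f : MvPolynomial (Fin (N + 1)) ℂ) : y ∈ UU v hv f ↔ f ∉ g.PI y :=
  Iff.rfl

theorem B_ne : g.B ≠ 0 := by
  intro h
  apply g.ne true true
  rw [g.hB, h, zero_pow g.m_pos.ne', zero_mul]

theorem Z_ne : g.Z ≠ 0 := by
  intro h
  apply g.ne true true
  rw [g.hZ, h, zero_pow g.n_pos.ne', zero_mul]

theorem quad (y : XX v hv) (s t : Bool) :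
    g.f s t * g.f (!s) (!t) - g.f s (!t) * g.f (!s) t ∈ g.PI y := by
  have h1 : g.f s t * g.f (!s) (!t) - g.f s (!t) * g.f (!s) t ∈ gr N (g.d + g.d) :=
    sub_mem (SetLike.mul_mem_graded (g.hf _ _) (g.hf _ _))
      (SetLike.mul_mem_graded (g.hf _ _) (g.hf _ _))
  have h2 : aeval v (g.f s t * g.f (!s) (!t) - g.f s (!t) * g.f (!s) t) = 0 := by
    rw [map_sub, map_mul, map_mul]
    cases s <;> cases t <;>
      simp only [Bool.not_false, Bool.not_true, g.hB, g.hZ] <;> ring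
  have h3 := Quad.not_mem_of_aeval_eq_zero v hv _ h1 (by have := g.d_pos; omega) h2 y
  by_contra h4
  exact h3 h4

/-- the first cover -/
def V (s : Bool) : (XX v hv).Opens := UU v hv (g.f s false) ⊔ UU v hv (g.f s true)
/-- the second cover -/
def W (t : Bool) : (XX v hv).Opens := UU v hv (g.f false t) ⊔ UU v hv (g.f true t)

theorem mem_V {s : Bool} {y : XX v hv} : y ∈ g.V s ↔ ∃ t, y ∈ UU v hv (g.f s t) := by
  constructor
  · rintro (h | h)
    · exact ⟨_, h⟩
    · exact ⟨_, h⟩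
  · rintro ⟨t, h⟩
    cases t
    · exact Or.inl h
    · exact Or.inr h

theorem mem_W {t : Bool} {y : XX v hv} : y ∈ g.W t ↔ ∃ s, y ∈ UU v hv (g.f s t) := by
  constructor
  · rintro (h | h)
    · exact ⟨_, h⟩
    · exact ⟨_, h⟩
  · rintro ⟨t, h⟩
    cases t
    · exact Or.inl h
    · exact Or.inr h

theorem V_inf_W (s t : Bool) : g.V s ⊓ g.W t = UU v hv (g.f s t) := by
  ext y
  constructor
  · rintro ⟨h1, h2⟩
    obtain ⟨t', h1⟩ := g.mem_V.1 h1
    obtain ⟨s', h2⟩ := g.mem_W.1 h2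
    by_contra h0
    rcases Bool.eq_or_eq_not t' t with rfl | rfl
    · exact h0 h1
    rcases Bool.eq_or_eq_not s' s with rfl | rfl
    · exact h0 h2
    have h3 : g.f s t ∈ g.PI y := by
      by_contra h4
      exact h0 h4
    have h4 := g.quad y s t
    have h5 : g.f s (!t) * g.f (!s) t ∈ g.PI y := by
      have h6 := (g.PI y).sub_mem ((g.PI y).mul_mem_right (g.f (!s) (!t)) h3) h4
      rwa [sub_sub_cancel] at h6
    rcases (inferInstance : (g.PI y).IsPrime).mem_or_mem h5 with h6 | h6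
    · exact h1 h6
    · exact h2 h6
  · intro h
    exact ⟨g.mem_V.2 ⟨t, h⟩, g.mem_W.2 ⟨s, h⟩⟩

theorem UU_le_V (s t : Bool) : UU v hv (g.f s t) ≤ g.V s := fun _ h => g.mem_V.2 ⟨t, h⟩
theorem UU_le_W (s t : Bool) : UU v hv (g.f s t) ≤ g.W t := fun _ h => g.mem_W.2 ⟨s, h⟩

theorem top_le_UU (s t : Bool) : ⊤ ≤ XX.pt v hv ⁻¹ᵁ UU v hv (g.f s t) :=
  pt_mem_UU v hv (g.f s t) (g.ne s t) (g.hf s t) g.d_pos

theorem top_le_V (s : Bool) : ⊤ ≤ XX.pt v hv ⁻¹ᵁ g.V s :=
  rho_le (g.UU_le_V s false) (g.top_le_UU s false)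

theorem top_le_W (t : Bool) : ⊤ ≤ XX.pt v hv ⁻¹ᵁ g.W t :=
  rho_le (g.UU_le_W false t) (g.top_le_UU false t)

theorem exists_b (s : Bool) : ∃ b : Γ(XX v hv, g.V s),
    rho (XX.pt v hv) (g.V s) (g.top_le_V s) b = g.B ^ BiP.sg s := by
  refine exists_section (ξ := XX.pt v hv) (g.V s) (g.top_le_V s) _ fun y hy => ?_
  obtain ⟨t, ht⟩ := g.mem_V.1 hy
  exact val_of_RR v hv (g.f s t) (g.ne s t) (g.hf s t) g.d_pos y ht (g.memB s t)

theorem exists_z (t : Bool) : ∃ z : Γ(XX v hv, g.W t),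
    rho (XX.pt v hv) (g.W t) (g.top_le_W t) z = g.Z ^ BiP.sg t := by
  refine exists_section (ξ := XX.pt v hv) (g.W t) (g.top_le_W t) _ fun y hy => ?_
  obtain ⟨s, hs⟩ := g.mem_W.1 hy
  exact val_of_RR v hv (g.f s t) (g.ne s t) (g.hf s t) g.d_pos y hs (g.memZ s t)

/-- the first coordinates -/
def b (s : Bool) : Γ(XX v hv, g.V s) := (g.exists_b s).choose
/-- the second coordinates -/
def z (t : Bool) : Γ(XX v hv, g.W t) := (g.exists_z t).choose

theorem rho_b (s : Bool) : rho (XX.pt v hv) (g.V s) (g.top_le_V s) (g.b s) = g.B ^ BiP.sg s :=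
  (g.exists_b s).choose_spec

theorem rho_z (t : Bool) : rho (XX.pt v hv) (g.W t) (g.top_le_W t) (g.z t) = g.Z ^ BiP.sg t :=
  (g.exists_z t).choose_spec

/-- the vanishing of the first coordinate -/
theorem mem_basicOpen_b (s t : Bool) {y : XX v hv} (hy : y ∈ UU v hv (g.f s t)) :
    y ∈ (XX v hv).basicOpen (g.b s) ↔ y ∈ UU v hv (g.f (!s) t) := by
  have hyV : y ∈ g.V s := g.UU_le_V s t hy
  obtain ⟨a, ha, ha'⟩ := val_frac v hv (g.hf s t) (g.hf (!s) t) g.d_pos g.d_pos hy
  have h1 : Val (XX.pt v hv) y (g.B ^ BiP.sg s) ((XX v hv).evaluation (g.V s) y hyV (g.b s)) :=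
    ⟨g.V s, hyV, g.top_le_V s, g.b s, g.rho_b s, rfl⟩
  have h2 : aeval v (g.f (!s) t) ^ g.d / aeval v (g.f s t) ^ g.d =
      (g.B ^ BiP.sg s) ^ (g.m * g.d) := by
    have h0 := g.ne false t
    have h0' := g.ne true t
    have hB := g.B_ne
    rw [pow_mul, ← div_pow]
    congr 1
    cases s
    · rw [Bool.not_false, g.hB, mul_div_cancel_right₀ _ h0]
      simp [BiP.sg]
    · rw [Bool.not_true, g.hB, BiP.sg]
      simp only [if_true, zpow_neg, zpow_one, inv_pow]
      field_simp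
  have h3 := h1.pow (g.m * g.d)
  rw [← h2] at h3
  have h4 := h3.unique ha
  rw [← Scheme.evaluation_ne_zero_iff_mem_basicOpen (XX v hv) y hyV (g.b s), ← not_iff_not,
    ← ha', ← h4, not_not, pow_eq_zero_iff (Nat.mul_pos g.m_pos g.d_pos).ne']

/-- the vanishing of the second coordinate -/
theorem mem_basicOpen_z (s t : Bool) {y : XX v hv} (hy : y ∈ UU v hv (g.f s t)) :
    y ∈ (XX v hv).basicOpen (g.z t) ↔ y ∈ UU v hv (g.f s (!t)) := by
  have hyW : y ∈ g.W t := g.UU_le_W s t hy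
  obtain ⟨a, ha, ha'⟩ := val_frac v hv (g.hf s t) (g.hf s (!t)) g.d_pos g.d_pos hy
  have h1 : Val (XX.pt v hv) y (g.Z ^ BiP.sg t) ((XX v hv).evaluation (g.W t) y hyW (g.z t)) :=
    ⟨g.W t, hyW, g.top_le_W t, g.z t, g.rho_z t, rfl⟩
  have h2 : aeval v (g.f s (!t)) ^ g.d / aeval v (g.f s t) ^ g.d =
      (g.Z ^ BiP.sg t) ^ (g.n * g.d) := by
    have h0 := g.ne s false
    have h0' := g.ne s true
    have hZ := g.Z_ne
    rw [pow_mul, ← div_pow]
    congr 1
    cases t
    · rw [Bool.not_false, g.hZ, mul_div_cancel_right₀ _ h0]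
      simp [BiP.sg]
    · rw [Bool.not_true, g.hZ, BiP.sg]
      simp only [if_true, zpow_neg, zpow_one, inv_pow]
      field_simp
  have h3 := h1.pow (g.n * g.d)
  rw [← h2] at h3
  have h4 := h3.unique ha
  rw [← Scheme.evaluation_ne_zero_iff_mem_basicOpen (XX v hv) y hyW (g.z t), ← not_iff_not,
    ← ha', ← h4, not_not, pow_eq_zero_iff (Nat.mul_pos g.n_pos g.d_pos).ne']

/-- **The two covers of a grid.** -/
def biP : BiP (XX v hv) where
  V := g.V
  W := g.W
  hV := by
    rw [eq_top_iff]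
    intro x _
    obtain ⟨s, t, h⟩ := g.cover x
    cases s
    · exact Or.inl (g.UU_le_V _ _ h)
    · exact Or.inr (g.UU_le_V _ _ h)
  hW := by
    rw [eq_top_iff]
    intro x _
    obtain ⟨s, t, h⟩ := g.cover x
    cases t
    · exact Or.inl (g.UU_le_W _ _ h)
    · exact Or.inr (g.UU_le_W _ _ h)
  aff s t := by
    rw [g.V_inf_W]
    exact UU_affine v hv (g.f s t) (g.hf s t) g.d_pos
  b := g.b
  z := g.z
  hb s := by
    ext y
    constructor
    · intro h
      have hyV : y ∈ g.V s := (XX v hv).basicOpen_le _ h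
      obtain ⟨t, ht⟩ := g.mem_V.1 hyV
      have h1 := g.UU_le_V _ _ ((g.mem_basicOpen_b s t ht).1 h)
      cases s
      · exact ⟨hyV, h1⟩
      · exact ⟨h1, hyV⟩
    · rintro ⟨h1, h2⟩
      have h3 : y ∈ g.V s ∧ y ∈ g.V (!s) := by
        cases s
        · exact ⟨h1, h2⟩
        · exact ⟨h2, h1⟩
      obtain ⟨t, ht⟩ := g.mem_V.1 h3.1
      refine (g.mem_basicOpen_b s t ht).2 ?_
      rw [← g.V_inf_W]
      exact ⟨h3.2, g.UU_le_W _ _ ht⟩
  hz t := by
    ext y
    constructor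
    · intro h
      have hyW : y ∈ g.W t := (XX v hv).basicOpen_le _ h
      obtain ⟨s, hs⟩ := g.mem_W.1 hyW
      have h1 := g.UU_le_W _ _ ((g.mem_basicOpen_z s t hs).1 h)
      cases t
      · exact ⟨hyW, h1⟩
      · exact ⟨h1, hyW⟩
    · rintro ⟨h1, h2⟩
      have h3 : y ∈ g.W t ∧ y ∈ g.W (!t) := by
        cases t
        · exact ⟨h1, h2⟩
        · exact ⟨h2, h1⟩
      obtain ⟨s, hs⟩ := g.mem_W.1 h3.1
      refine (g.mem_basicOpen_z s t hs).2 ?_
      rw [← g.V_inf_W]
      exact ⟨g.UU_le_V _ _ hs, h3.2⟩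
  bb := by
    have h : ⊤ ≤ XX.pt v hv ⁻¹ᵁ (g.V false ⊓ g.V true) :=
      fun p hp => ⟨g.top_le_V false hp, g.top_le_V true hp⟩
    apply rho_inj (XX.pt v hv) _ h
    rw [map_mul, map_one, rho_resF (XX.pt v hv) inf_le_left h (g.top_le_V false),
      rho_resF (XX.pt v hv) inf_le_right h (g.top_le_V true), g.rho_b, g.rho_b]
    simp [BiP.sg, g.B_ne]
  zz := by
    have h : ⊤ ≤ XX.pt v hv ⁻¹ᵁ (g.W false ⊓ g.W true) :=
      fun p hp => ⟨g.top_le_W false hp, g.top_le_W true hp⟩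
    apply rho_inj (XX.pt v hv) _ h
    rw [map_mul, map_one, rho_resF (XX.pt v hv) inf_le_left h (g.top_le_W false),
      rho_resF (XX.pt v hv) inf_le_right h (g.top_le_W true), g.rho_z, g.rho_z]
    simp [BiP.sg, g.Z_ne]
  pt := gp (XX.pt v hv)
  pt_mem := ⟨⟨gp_mem _ (g.top_le_V false), gp_mem _ (g.top_le_V true)⟩,
    ⟨gp_mem _ (g.top_le_W false), gp_mem _ (g.top_le_W true)⟩⟩

@[simp] theorem biP_V (s : Bool) : g.biP.V s = g.V s := rfl
@[simp] theorem biP_W (t : Bool) : g.biP.W t = g.W t := rfl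
theorem biP_b (s : Bool) : g.biP.b s = g.b s := rfl
theorem biP_z (t : Bool) : g.biP.z t = g.z t := rfl

theorem U_eq (s t : Bool) : g.biP.U s t = UU v hv (g.f s t) := g.V_inf_W s t

theorem top_le_U (s t : Bool) : ⊤ ≤ XX.pt v hv ⁻¹ᵁ g.biP.U s t :=
  fun _ hp => ⟨g.top_le_V s hp, g.top_le_W t hp⟩

/-- the values of the functions on the charts -/
theorem range_rho (s t : Bool) (h : ⊤ ≤ XX.pt v hv ⁻¹ᵁ g.biP.U s t) :
    (rho (XX.pt v hv) (g.biP.U s t) h).range = RR v (g.f s t) (g.ne s t) := by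
  rw [← rho_range v hv (g.f s t) (g.ne s t) (g.hf s t) g.d_pos]
  have key : ∀ (U U' : (XX v hv).Opens) (_ : U = U') (h : ⊤ ≤ XX.pt v hv ⁻¹ᵁ U)
      (h' : ⊤ ≤ XX.pt v hv ⁻¹ᵁ U'), (rho (XX.pt v hv) U h).range = (rho (XX.pt v hv) U' h').range := by
    rintro U _ rfl h h'
    rfl
  exact key _ _ (g.U_eq s t) _ _

theorem ffm_B : ffm (XX.pt v hv) g.biP.B = g.B := by
  have h := (ffm_toK (XX.pt v hv) (p := g.biP.pt) g.biP.pt_mem.1.1 (g.top_le_V false)
    (g.biP.b false)).trans (g.rho_b false)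
  exact h.trans (zpow_one _)

theorem ffm_Z : ffm (XX.pt v hv) g.biP.Z = g.Z := by
  have h := (ffm_toK (XX.pt v hv) (p := g.biP.pt) g.biP.pt_mem.2.1 (g.top_le_W false)
    (g.biP.z false)).trans (g.rho_z false)
  exact h.trans (zpow_one _)

/-- an element of the function field is regular on a chart iff its value is in the chart ring -/
theorem secs_iff (s t : Bool) (x : (XX v hv).functionField) :
    x ∈ (FO (XX v hv)).secs (g.biP.U s t) ↔
      ffm (XX.pt v hv) x ∈ RR v (g.f s t) (g.ne s t) := by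
  rw [← g.range_rho s t (g.top_le_U s t)]
  exact (ffm_mem_iff (XX.pt v hv) (g.biP.pt_mem_U s t) (g.top_le_U s t) x).symm

/-- the embedding of the function field -/
abbrev ff (_ : Grid v hv) : (XX v hv).functionField →ₐ[ℂ] K := ffA (XX.pt v hv) (pt_str v hv)

theorem ff_B : g.ff g.biP.B = g.B := g.ffm_B
theorem ff_Z : g.ff g.biP.Z = g.Z := g.ffm_Z

end Grid

/-- The chart rings of a grid are the spans of the monomials `B^p Z^q e_l` in certain ranges. -/
structure SplitK {v : Fin (N + 1) → K} {hv : v 0 ≠ 0} (g : Grid v hv) (ι : Type) where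
  /-- the basis -/
  e : ι → K
  /-- the first exponents -/
  a : ι → ℤ
  /-- the second exponents -/
  b : ι → ℤ
  indep : LinearIndependent ℂ (fun x : ι × ℤ × ℤ => g.B ^ x.2.1 * g.Z ^ x.2.2 * e x.1)
  secs : ∀ s t (x : K), x ∈ RR v (g.f s t) (g.ne s t) ↔ x ∈ Submodule.span ℂ
    {x : K | ∃ l p q, (Rg s (a l) p ∧ Rg t (b l) q) ∧ x = g.B ^ p * g.Z ^ q * e l}

namespace SplitK

variable {v : Fin (N + 1) → K} {hv : v 0 ≠ 0} {g : Grid v hv} {ι : Type} (S : SplitK g ι)

include S in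
theorem exists_e (l : ι) : ∃ x : (XX v hv).functionField, g.ff x = S.e l := by
  have h1 : S.e l ∈ RR v (g.f false false) (g.ne false false) := by
    rw [S.secs]
    refine Submodule.subset_span ⟨l, 0, 0, ⟨le_refl (0 : ℤ), le_refl (0 : ℤ)⟩, ?_⟩
    simp
  rw [← g.range_rho false false (g.top_le_U false false)] at h1
  exact exists_ffm_eq (XX.pt v hv) (g.biP.pt_mem_U false false) (g.top_le_U false false) _ h1

/-- **The split structure sheaf.** -/
def split : g.biP.Split (FO (XX v hv)) ι where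
  e l := (S.exists_e l).choose
  a := S.a
  b := S.b
  indep := by
    have h := S.indep
    refine LinearIndependent.of_comp g.ff.toLinearMap ?_
    convert! h using 1
    ext x
    simp only [Function.comp_apply, AlgHom.toLinearMap_apply, map_mul, map_zpow₀, g.ff_B, g.ff_Z]
    rw [(S.exists_e x.1).choose_spec]
  secs s t := by
    have hinj : Function.Injective g.ff := ffm_inj (XX.pt v hv)
    ext x
    refine (g.secs_iff s t x).trans ((S.secs s t _).trans ?_)
    have h1 : Submodule.map g.ff.toLinearMap (g.biP.spanR (fun l => (S.exists_e l).choose)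
        (fun l p q => Rg s (S.a l) p ∧ Rg t (S.b l) q)) = Submodule.span ℂ
        {x : K | ∃ l p q, (Rg s (S.a l) p ∧ Rg t (S.b l) q) ∧ x = g.B ^ p * g.Z ^ q * S.e l} := by
      rw [BiP.spanR, Submodule.map_span]
      congr 1
      ext y
      constructor
      · rintro ⟨_, ⟨l, p, q, h, rfl⟩, rfl⟩
        refine ⟨l, p, q, h, ?_⟩
        simp only [AlgHom.toLinearMap_apply, map_mul, map_zpow₀, g.ff_B, g.ff_Z]
        rw [(S.exists_e l).choose_spec]
      · rintro ⟨l, p, q, h, rfl⟩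
        refine ⟨_, ⟨l, p, q, h, rfl⟩, ?_⟩
        simp only [AlgHom.toLinearMap_apply, map_mul, map_zpow₀, g.ff_B, g.ff_Z]
        rw [(S.exists_e l).choose_spec]
    rw [← h1]
    exact hinj.mem_set_image

theorem split_e (l : ι) : g.ff (S.split.e l) = S.e l := (S.exists_e l).choose_spec
theorem split_a (l : ι) : S.split.a l = S.a l := rfl
theorem split_b (l : ι) : S.split.b l = S.b l := rfl

end SplitK

end M21.E3
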