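import Pool.Agent.H.MP_21b43d_ag.E3.Q.Grid
import Pool.Agent.H.MP_21b43d_ag.XP.Emb1

/-!
# M21, existence part: Laurent monomials, chart rings as spans, grids of linear forms
-/

set_option autoImplicit false

open CategoryTheory CategoryTheory.Limits AlgebraicGeometry TopologicalSpace MvPolynomial

noncomputable section

namespace M21.E3

open M21X

variable {K : Type} [Field K] [Algebra ℂ K]

/-- Laurent monomials in algebraically independent elements are linearly independent. -/
theorem laurent_indep {B Z : K} (h : AlgebraicIndependent ℂ ![B, Z]) :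
    LinearIndependent ℂ (fun x : ℤ × ℤ => B ^ x.1 * Z ^ x.2) := by
  have hB : B ≠ 0 := h.ne_zero 0
  have hZ : Z ≠ 0 := h.ne_zero 1
  rw [linearIndependent_iff']
  intro s c hc
  obtain ⟨n, hn⟩ : ∃ n : ℕ, ∀ x ∈ s, 0 ≤ x.1 + n ∧ 0 ≤ x.2 + n := by
    refine ⟨∑ x ∈ s, (x.1.natAbs + x.2.natAbs), fun x hx => ?_⟩
    have h1 := Finset.single_le_sum (f := fun x : ℤ × ℤ => x.1.natAbs + x.2.natAbs)
      (fun _ _ => Nat.zero_le _) hx
    omega
  let ex : ℤ × ℤ → (Fin 2 →₀ ℕ) := fun x =>
    Finsupp.single 0 (x.1 + n).toNat + Finsupp.single 1 (x.2 + n).toNat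
  have hex : ∀ x ∈ s, ∀ y ∈ s, ex x = ex y → x = y := by
    intro x hx y hy hxy
    have h0 := DFunLike.congr_fun hxy 0
    have h1 := DFunLike.congr_fun hxy 1
    simp [ex] at h0 h1
    have := hn x hx
    have := hn y hy
    ext <;> omega
  have hm : ∀ x ∈ s, aeval ![B, Z] (monomial (ex x) (c x)) =
      B ^ (n : ℤ) * Z ^ (n : ℤ) * (c x • (B ^ x.1 * Z ^ x.2)) := by
    intro x hx
    obtain ⟨h0, h1⟩ := hn x hx
    rw [aeval_monomial, Finsupp.prod_fintype _ _ (fun _ => pow_zero _)]
    simp only [Fin.prod_univ_two, ex, Finsupp.add_apply, Finsupp.single_eq_same]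
    simp only [Matrix.cons_val_zero, Matrix.cons_val_one]
    rw [Finsupp.single_eq_of_ne (by decide), Finsupp.single_eq_of_ne (by decide)]
    simp only [add_zero, zero_add]
    rw [← zpow_natCast, ← zpow_natCast, Int.toNat_of_nonneg h0, Int.toNat_of_nonneg h1,
      zpow_add₀ hB, zpow_add₀ hZ, Algebra.smul_def]
    ring
  have h2 : aeval ![B, Z] (∑ x ∈ s, monomial (ex x) (c x)) = 0 := by
    rw [map_sum, Finset.sum_congr rfl hm, ← Finset.mul_sum, hc, mul_zero]
  have h3 : ∑ x ∈ s, monomial (ex x) (c x) = 0 := h (by rw [h2, map_zero])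
  intro x hx
  have h4 := congrArg (coeff (ex x)) h3
  rw [coeff_sum, coeff_zero, Finset.sum_eq_single x] at h4
  · rwa [coeff_monomial, if_pos rfl] at h4
  · intro y hy hyx
    rw [coeff_monomial, if_neg fun e => hyx (hex y hy x hx e)]
  · exact fun h => absurd hx h

/-- Independence of the monomials `B^p Z^q e_l`, `e_l` independent over a field containing `B`, `Z`. -/
theorem indep_of_field {B Z : K} (h : AlgebraicIndependent ℂ ![B, Z]) {ι : Type} (e : ι → K)
    (F : IntermediateField ℂ K) (hB : B ∈ F) (hZ : Z ∈ F) (he : LinearIndependent F e) :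
    LinearIndependent ℂ (fun x : ι × ℤ × ℤ => B ^ x.2.1 * Z ^ x.2.2 * e x.1) := by
  have h1 : LinearIndependent ℂ (fun x : ℤ × ℤ => (⟨B, hB⟩ ^ x.1 * ⟨Z, hZ⟩ ^ x.2 : F)) := by
    refine LinearIndependent.of_comp (IsScalarTower.toAlgHom ℂ F K).toLinearMap ?_
    convert! laurent_indep h using 1
  have h2 := linearIndependent_smul h1 he
  let eqv : ι × ℤ × ℤ ≃ (ℤ × ℤ) × ι := Equiv.prodComm _ _
  have h3 := h2.comp eqv eqv.injective
  convert! h3 using 1

variable {N : ℕ}

/-- A criterion for the equality of a chart ring with a span. -/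
theorem mem_RR_iff_span (v : Fin (N + 1) → K) (j : Fin (N + 1))
    (hj : aeval v (X j : MvPolynomial (Fin (N + 1)) ℂ) ≠ 0) (S : Set K)
    (h1 : (1 : K) ∈ Submodule.span ℂ S)
    (h2 : ∀ i, ∀ x ∈ S, v i / v j * x ∈ Submodule.span ℂ S)
    (h3 : ∀ x ∈ S, x ∈ Algebra.adjoin ℂ (Set.range fun i => v i / v j)) (x : K) :
    x ∈ RR v (X j) hj ↔ x ∈ Submodule.span ℂ S := by
  rw [M21.XP.RR_X v j hj]
  change x ∈ Algebra.adjoin ℂ (Set.range fun i => v i / v j) ↔ _
  constructor
  · intro hx
    have key : ∀ y ∈ Submodule.span ℂ S, x * y ∈ Submodule.span ℂ S := by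
      induction hx using Algebra.adjoin_induction with
      | mem z hz =>
        obtain ⟨i, rfl⟩ := hz
        intro y hy
        induction hy using Submodule.span_induction with
        | mem y hy => exact h2 i y hy
        | zero => rw [mul_zero]; exact zero_mem _
        | add a b _ _ ha hb => rw [mul_add]; exact add_mem ha hb
        | smul c a _ ha => rw [mul_smul_comm]; exact Submodule.smul_mem _ c ha
      | algebraMap c =>
        intro y hy
        rw [← Algebra.smul_def]
        exact Submodule.smul_mem _ c hy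
      | add a b _ _ ha hb =>
        intro y hy
        rw [add_mul]
        exact add_mem (ha y hy) (hb y hy)
      | mul a b _ _ ha hb =>
        intro y hy
        rw [mul_assoc]
        exact ha _ (hb y hy)
    have h4 := key 1 h1
    rwa [mul_one] at h4
  · intro hx
    exact (Submodule.span_le (p := Subalgebra.toSubmodule
      (Algebra.adjoin ℂ (Set.range fun i => v i / v j)))).2 h3 hx

/-- A fraction of two polynomials of the same degree is in the chart ring. -/
theorem div_mem_RR (v : Fin (N + 1) → K) {f g : MvPolynomial (Fin (N + 1)) ℂ} {d : ℕ}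
    (hf : f ∈ gr N d) (hg : g ∈ gr N d) (hf0 : aeval v f ≠ 0) {x : K}
    (hx : aeval v g = x * aeval v f) : x ∈ RR v f hf0 := by
  rw [mem_RR_iff v f hf0 hf]
  refine ⟨1, g, by rwa [one_mul], ?_⟩
  rw [pow_one, hx, mul_div_cancel_right₀ _ hf0]

/-- A grid with the exponents `m = n = 1`. -/
def Grid.mk1 (v : Fin (N + 1) → K) (hv : v 0 ≠ 0) (d : ℕ)
    (f : Bool → Bool → MvPolynomial (Fin (N + 1)) ℂ) (d_pos : 0 < d) (hf : ∀ s t, f s t ∈ gr N d)
    (ne : ∀ s t, aeval v (f s t) ≠ 0) (B Z : K)
    (hB : ∀ t, aeval v (f true t) = B * aeval v (f false t))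
    (hZ : ∀ s, aeval v (f s true) = Z * aeval v (f s false))
    (cover : ∀ x : XX v hv, ∃ s t, x ∈ UU v hv (f s t)) : Grid v hv where
  d := d
  f := f
  d_pos := d_pos
  hf := hf
  ne := ne
  B := B
  Z := Z
  m := 1
  n := 1
  m_pos := one_pos
  n_pos := one_pos
  hB t := by rw [pow_one]; exact hB t
  hZ s := by rw [pow_one]; exact hZ s
  memB s t := by
    have hB0 : B ≠ 0 := by
      intro h
      apply ne true true
      rw [hB, h, zero_mul]
    cases s
    · refine div_mem_RR v (hf false t) (hf true t) (ne false t) ?_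
      rw [hB]
      simp [BiP.sg]
    · refine div_mem_RR v (hf true t) (hf false t) (ne true t) ?_
      rw [hB]
      simp only [BiP.sg, if_true, zpow_neg, zpow_one]
      field_simp
  memZ s t := by
    have hZ0 : Z ≠ 0 := by
      intro h
      apply ne true true
      rw [hZ, h, zero_mul]
    cases t
    · refine div_mem_RR v (hf s false) (hf s true) (ne s false) ?_
      rw [hZ]
      simp [BiP.sg]
    · refine div_mem_RR v (hf s true) (hf s false) (ne s true) ?_
      rw [hZ]
      simp only [BiP.sg, if_true, zpow_neg, zpow_one]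
      field_simp
  cover := cover

end M21.E3
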