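import Pool.Agent.H.MP_21b43d_ag.E3.Q.Lau

/-!
# M21, existence part: the grid and the split structure sheaf of `ℙ¹ × ℙ¹`

`ℙ¹ × ℙ¹` as the closure of the point `(1, B, Z, B Z)`, `B`, `Z` algebraically independent.
-/

set_option autoImplicit false

open CategoryTheory CategoryTheory.Limits AlgebraicGeometry TopologicalSpace MvPolynomial

noncomputable section

namespace M21.E3

open M21X

namespace Pl

variable {K : Type} [Field K] [Algebra ℂ K] (B Z : K)

/-- the coordinates -/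
def vec : Fin 4 → K := ![1, B, Z, B * Z]

omit [Algebra ℂ K] in
theorem vec0_ne : vec B Z 0 ≠ 0 := one_ne_zero

/-- the indices of the four charts -/
def ix (s t : Bool) : Fin 4 := if s then (if t then 3 else 1) else (if t then 2 else 0)

/-- `1` or `0` -/
def oi (s : Bool) : ℤ := if s then 1 else 0

omit [Algebra ℂ K] in
theorem vec_ix (s t : Bool) : vec B Z (ix s t) = B ^ oi s * Z ^ oi t := by
  cases s <;> cases t <;> simp [ix, vec, oi]

theorem ix_surj (k : Fin 4) : ∃ s t, ix s t = k := by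
  fin_cases k
  · exact ⟨false, false, rfl⟩
  · exact ⟨true, false, rfl⟩
  · exact ⟨false, true, rfl⟩
  · exact ⟨true, true, rfl⟩

variable {B Z}

/-- **The grid of `ℙ¹ × ℙ¹`.** -/
def grid (hB : B ≠ 0) (hZ : Z ≠ 0) : Grid (N := 3) (vec B Z) (vec0_ne B Z) :=
  Grid.mk1 (N := 3) (vec B Z) (vec0_ne B Z) 1 (fun s t => X (ix s t)) one_pos (fun s t => X_mem 3 _)
    (fun s t => by
      rw [aeval_X, vec_ix]
      exact mul_ne_zero (zpow_ne_zero _ hB) (zpow_ne_zero _ hZ))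
    B Z
    (fun t => by
      rw [aeval_X, aeval_X, vec_ix, vec_ix]
      simp [oi])
    (fun s => by
      rw [aeval_X, aeval_X, vec_ix, vec_ix]
      simp [oi, mul_comm])
    (fun y => by
      obtain ⟨k, hk⟩ := Quad.exists_X_mem 3 (XX.emb (N := 3) (vec B Z) (vec0_ne B Z) y)
      obtain ⟨s, t, rfl⟩ := ix_surj k
      exact ⟨s, t, hk⟩)

theorem grid_B (hB : B ≠ 0) (hZ : Z ≠ 0) : (grid hB hZ).B = B := rfl
theorem grid_Z (hB : B ≠ 0) (hZ : Z ≠ 0) : (grid hB hZ).Z = Z := rfl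
theorem grid_f (hB : B ≠ 0) (hZ : Z ≠ 0) (s t : Bool) : (grid hB hZ).f s t = X (ix s t) := rfl

/-- the monomials in the chart ring -/
def SS (B Z : K) (s t : Bool) : Set K :=
  {x : K | ∃ (_ : Unit) (p q : ℤ), (Rg s 0 p ∧ Rg t 0 q) ∧ x = B ^ p * Z ^ q * 1}

omit [Algebra ℂ K] in
theorem vec_div (hB : B ≠ 0) (hZ : Z ≠ 0) (s t s' t' : Bool) :
    vec B Z (ix s' t') / vec B Z (ix s t) = B ^ (oi s' - oi s) * Z ^ (oi t' - oi t) := by
  have h1 := zpow_ne_zero (oi s) hB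
  have h2 := zpow_ne_zero (oi t) hZ
  rw [vec_ix, vec_ix, zpow_sub₀ hB, zpow_sub₀ hZ]
  field_simp

/-- the chart rings, as the algebras generated by the quotients of the coordinates -/
abbrev AD (B Z : K) (s t : Bool) : Subalgebra ℂ K :=
  Algebra.adjoin ℂ (Set.range fun k => vec B Z k / vec B Z (ix s t))

theorem B_mem (hB : B ≠ 0) (hZ : Z ≠ 0) (s t : Bool) : B ^ BiP.sg s ∈ AD B Z s t := by
  have h : B ^ BiP.sg s = vec B Z (ix (!s) t) / vec B Z (ix s t) := by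
    rw [vec_div hB hZ]
    cases s <;> simp [oi, BiP.sg]
  rw [h]
  exact Algebra.subset_adjoin ⟨_, rfl⟩

theorem Z_mem (hB : B ≠ 0) (hZ : Z ≠ 0) (s t : Bool) : Z ^ BiP.sg t ∈ AD B Z s t := by
  have h : Z ^ BiP.sg t = vec B Z (ix s (!t)) / vec B Z (ix s t) := by
    rw [vec_div hB hZ]
    cases t <;> simp [oi, BiP.sg]
  rw [h]
  exact Algebra.subset_adjoin ⟨_, rfl⟩

theorem mem_AD (hB : B ≠ 0) (hZ : Z ≠ 0) (s t : Bool) {x : K} (hx : x ∈ SS B Z s t) :
    x ∈ AD B Z s t := by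
  obtain ⟨-, p, q, ⟨h1, h2⟩, rfl⟩ := hx
  obtain ⟨n, hn⟩ : ∃ n : ℕ, p = BiP.sg s * n := by
    cases s
    · exact ⟨p.toNat, by simp [BiP.sg, Rg] at h1 ⊢; omega⟩
    · exact ⟨(-p).toNat, by simp [BiP.sg, Rg] at h1 ⊢; omega⟩
  obtain ⟨m, hm⟩ : ∃ m : ℕ, q = BiP.sg t * m := by
    cases t
    · exact ⟨q.toNat, by simp [BiP.sg, Rg] at h2 ⊢; omega⟩
    · exact ⟨(-q).toNat, by simp [BiP.sg, Rg] at h2 ⊢; omega⟩
  rw [hn, hm, mul_one, zpow_mul, zpow_mul, zpow_natCast, zpow_natCast]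
  exact mul_mem (pow_mem (B_mem hB hZ s t) n) (pow_mem (Z_mem hB hZ s t) m)

theorem ne_B (h : AlgebraicIndependent ℂ ![B, Z]) : B ≠ 0 := h.ne_zero 0
theorem ne_Z (h : AlgebraicIndependent ℂ ![B, Z]) : Z ≠ 0 := h.ne_zero 1

/-- **The split structure sheaf of `ℙ¹ × ℙ¹`.** -/
def split (h : AlgebraicIndependent ℂ ![B, Z]) : SplitK (grid (ne_B h) (ne_Z h)) Unit where
  e _ := 1
  a _ := 0
  b _ := 0
  indep := by
    have h1 := laurent_indep h
    have h2 := h1.comp (fun x : Unit × ℤ × ℤ => x.2) (fun x y e => Prod.ext rfl e)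
    convert! h2 using 1
    ext x
    simp only [Function.comp_apply, mul_one]
    rfl
  secs s t x := by
    have hB := ne_B h
    have hZ := ne_Z h
    refine mem_RR_iff_span (vec B Z) (ix s t) _ (SS B Z s t) ?_ (fun k x hx => ?_)
      (fun x hx => mem_AD hB hZ s t hx) x
    · refine Submodule.subset_span ⟨(), 0, 0, ⟨?_, ?_⟩, by simp⟩
      · cases s <;> simp [Rg]
      · cases t <;> simp [Rg]
    · obtain ⟨s', t', rfl⟩ := ix_surj k
      obtain ⟨-, p, q, ⟨h1, h2⟩, rfl⟩ := hx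
      rw [vec_div hB hZ]
      refine Submodule.subset_span ⟨(), p + (oi s' - oi s), q + (oi t' - oi t), ⟨?_, ?_⟩, ?_⟩
      · cases s <;> cases s' <;> simp [Rg, oi] at h1 ⊢ <;> omega
      · cases t <;> cases t' <;> simp [Rg, oi] at h2 ⊢ <;> omega
      · rw [zpow_add₀ hB, zpow_add₀ hZ]
        ring

theorem split_e (h : AlgebraicIndependent ℂ ![B, Z]) : (split h).split.e () = 1 := by
  apply ffm_inj (XX.pt (vec B Z) (vec0_ne B Z))
  rw [map_one]
  exact (split h).split_e ()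

theorem split_a (h : AlgebraicIndependent ℂ ![B, Z]) : (split h).split.a () = 0 := rfl
theorem split_b (h : AlgebraicIndependent ℂ ![B, Z]) : (split h).split.b () = 0 := rfl

end Pl

end M21.E3
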